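import Pool.Agent.Y701.PE.Plane

/-!
Pencils on projective varieties: the exact product over `k(t)`.
-/

set_option autoImplicit false
set_option linter.all false
set_option maxHeartbeats 4000000

open FF Module Pool.Agent.W343.BSD
open scoped LinearAlgebra.Projectivization

namespace Pool.Agent.Y701.PE

open Pool.Agent.Y701.QF

variable {k : Type} [Field k] [Finite k] {n : ℕ}

theorem cc_lfun {K : Type} [Field K] [Algebra k K] [FF.IsFF k K] {c : ℕ → ℤ} {t : K}
    {I : Set (MvPolynomial (Fin (n + 1)) k)} {F G : MvPolynomial (Fin (n + 1)) k}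
    {Λ : PowerSeries ℤ} (hΛ : IsLFunction k c t I F G Λ) : PowerSeries.constantCoeff Λ = 1 := by
  obtain ⟨P, hP, e⟩ := hΛ
  have h1 := congrArg PowerSeries.constantCoeff e
  rw [map_mul, map_one] at h1
  have h2 : PowerSeries.constantCoeff (eulerProd (fun w : Place k K => S.deg w)
      (fun w => sub (S.deg w) (P w))) = 1 := by
    simp only [S.deg_eq]
    rw [← PowerSeries.coeff_zero_eq_constantCoeff_apply,
      coeff_eulerProd (fun n => places_fin n), PowerSeries.coeff_zero_eq_constantCoeff_apply,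
      map_prod]
    refine Finset.prod_eq_one fun v _ => ?_
    obtain ⟨a, -, ha⟩ := hP v
    rw [cc_sub, ha.1]
  rw [h2, mul_one] at h1
  exact h1

/-- `Z = exp (∑ y_m T ^ m / m)`, where `y_m` is the number of the points over the extension of degree
`m` of the variety defined by `I`. -/
def IsZeta (I : Set (MvPolynomial (Fin (n + 1)) k)) (Z : PowerSeries ℤ) : Prop :=
  ∃ y : ℕ → ℤ, IsCount I y ∧ IsExp (fun m => -y m) Z

theorem toC_rescale (u : ℤ) (Z : PowerSeries ℤ) :
    toC (PowerSeries.rescale u Z) = PowerSeries.rescale ((u : ℤ) : ℂ) (toC Z) := by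
  ext m
  rw [PowerSeries.coeff_map, PowerSeries.coeff_rescale, PowerSeries.coeff_rescale,
    PowerSeries.coeff_map, map_mul, map_pow]
  rfl

theorem cc_rescale {R : Type*} [CommRing R] (u : R) (Z : PowerSeries R) :
    PowerSeries.constantCoeff (PowerSeries.rescale u Z) = PowerSeries.constantCoeff Z := by
  rw [← PowerSeries.coeff_zero_eq_constantCoeff_apply, PowerSeries.coeff_rescale, pow_zero,
    one_mul, PowerSeries.coeff_zero_eq_constantCoeff_apply]

theorem pw_linear (u : ℤ) {m : ℕ} (hm : m ≠ 0) :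
    PowerSeries.coeff m (pw (toC (1 - PowerSeries.C u * PowerSeries.X))) = -((u : ℤ) : ℂ) ^ m := by
  have e : toC (1 - PowerSeries.C u * PowerSeries.X) =
      1 - PowerSeries.C ((u : ℤ) : ℂ) * PowerSeries.X ^ 1 := by
    rw [map_sub, map_one, map_mul, PowerSeries.map_C, PowerSeries.map_X, pow_one]
    rfl
  rw [e, coeff_pw_lin one_ne_zero _ hm, if_pos (one_dvd m), Nat.div_one, Nat.cast_one, one_mul]

theorem cc_linear (u : ℤ) : PowerSeries.constantCoeff (1 - PowerSeries.C u * PowerSeries.X :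
    PowerSeries ℤ) = 1 := by
  rw [map_sub, map_one, map_mul, PowerSeries.constantCoeff_X, mul_zero, sub_zero]

theorem pw_pow {F : PowerSeries ℂ} (hF : PowerSeries.constantCoeff F = 1) (j : ℕ) :
    pw (F ^ j) = (j : PowerSeries ℂ) * pw F := by
  induction j with
  | zero => rw [pow_zero, pw_one, Nat.cast_zero, zero_mul]
  | succ j ih =>
    have hF' : PowerSeries.constantCoeff F ≠ 0 := by rw [hF]; exact one_ne_zero
    rw [pow_succ, pw_mul (by rw [map_pow, hF, one_pow]; exact one_ne_zero) hF', ih]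
    push_cast
    ring

/-- the expected product -/
noncomputable def trivPart (q : ℤ) (N : ℕ) (c : ℕ → ℕ) : PowerSeries ℤ :=
  ∏ i ∈ Finset.range N, ((1 - PowerSeries.C (q ^ i) * PowerSeries.X) *
    (1 - PowerSeries.C (q ^ (i + 1)) * PowerSeries.X)) ^ c i

theorem exact_var {N : ℕ} {c : ℕ → ℕ} {I : Set (MvPolynomial (Fin (n + 1)) k)}
    {F G : MvPolynomial (Fin (n + 1)) k} {Λ ZY ZB : PowerSeries ℤ}
    (hΛ : IsLFunction k (fun Q => ∑ i ∈ Finset.range N, (c i : ℤ) * (Q : ℤ) ^ i)
      (RatFunc.X : RatFunc k) I F G Λ) (hY : IsZeta I ZY) (hB : IsZeta (I ∪ {F, G}) ZB) :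
    Λ * ZY * PowerSeries.rescale (Nat.card k : ℤ) ZB * trivPart (Nat.card k : ℤ) N c = 1 := by
  classical
  obtain ⟨y, hy, hyZ⟩ := hY
  obtain ⟨z, hz, hzZ⟩ := hB
  set q : ℤ := (Nat.card k : ℤ) with hq
  have c1 := cc_toC (cc_lfun hΛ)
  have c2 := cc_toC hyZ.1
  have c3' : PowerSeries.constantCoeff (PowerSeries.rescale q ZB) = 1 := by
    rw [cc_rescale, hzZ.1]
  have c3 := cc_toC c3'
  have c4' : PowerSeries.constantCoeff (trivPart q N c) = 1 := by
    unfold trivPart
    rw [map_prod]
    exact Finset.prod_eq_one fun i _ => by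
      rw [map_pow, map_mul, cc_linear, cc_linear, one_mul, one_pow]
  have c4 := cc_toC c4'
  apply toC_inj
  rw [map_mul, map_mul, map_mul, map_one]
  apply eq_of_pw
  · rw [map_mul, map_mul, map_mul, c1, c2, c3, c4]
    norm_num
  · rw [map_one]
  · intro m hm
    have n1 : PowerSeries.constantCoeff (toC Λ) ≠ 0 := by rw [c1]; exact one_ne_zero
    have n2 : PowerSeries.constantCoeff (toC ZY) ≠ 0 := by rw [c2]; exact one_ne_zero
    have n3 : PowerSeries.constantCoeff (toC (PowerSeries.rescale q ZB)) ≠ 0 := by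
      rw [c3]; exact one_ne_zero
    have n4 : PowerSeries.constantCoeff (toC (trivPart q N c)) ≠ 0 := by
      rw [c4]; exact one_ne_zero
    rw [pw_mul (by rw [map_mul, map_mul]; exact mul_ne_zero (mul_ne_zero n1 n2) n3) n4,
      pw_mul (by rw [map_mul]; exact mul_ne_zero n1 n2) n3, pw_mul n1 n2, map_add, map_add,
      map_add, pw_rat _ hΛ hy hz hm, pw_of hyZ hm, toC_rescale,
      coeff_pw_rescale _ (by rw [cc_toC hzZ.1]; exact one_ne_zero), pw_of hzZ hm, pw_one, map_zero]
    have e1 : PowerSeries.coeff m (pw (toC (trivPart q N c))) =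
        -∑ i ∈ Finset.range N, (c i : ℂ) * ((q : ℂ) ^ (i * m) + (q : ℂ) ^ ((i + 1) * m)) := by
      unfold trivPart
      rw [map_prod, pw_prod, map_sum, ← Finset.sum_neg_distrib]
      · refine Finset.sum_congr rfl fun i _ => ?_
        have m1 : PowerSeries.constantCoeff (toC (1 - PowerSeries.C (q ^ i) *
            PowerSeries.X)) = 1 := cc_toC (cc_linear _)
        have m2 : PowerSeries.constantCoeff (toC (1 - PowerSeries.C (q ^ (i + 1)) *
            PowerSeries.X)) = 1 := cc_toC (cc_linear _)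
        rw [map_pow, map_mul, pw_pow (by rw [map_mul, m1, m2, one_mul]),
          pw_mul (by rw [m1]; exact one_ne_zero) (by rw [m2]; exact one_ne_zero)]
        have e2 : (c i : PowerSeries ℂ) = PowerSeries.C (c i : ℂ) := by rw [map_natCast]
        rw [e2, PowerSeries.coeff_C_mul, map_add, pw_linear _ hm, pw_linear _ hm]
        push_cast
        rw [← pow_mul, ← pow_mul]
        ring
      · intro i _
        rw [map_pow, map_pow, map_mul, map_mul, cc_toC (cc_linear _), cc_toC (cc_linear _)]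
        norm_num
    rw [e1]
    have e3 : ((((Nat.card k : ℤ) ^ m + 1) * (∑ i ∈ Finset.range N, (c i : ℤ) *
        (((Nat.card k ^ m : ℕ)) : ℤ) ^ i) - (y m + (Nat.card k : ℤ) ^ m * z m) : ℤ) : ℂ) =
        ((q : ℂ) ^ m + 1) * (∑ i ∈ Finset.range N, (c i : ℂ) * (q : ℂ) ^ (i * m)) -
          ((y m : ℂ) + (q : ℂ) ^ m * z m) := by
      rw [hq]
      push_cast
      congr 2
      refine Finset.sum_congr rfl fun i _ => ?_
      rw [← pow_mul, mul_comm m i]
    rw [e3]
    have e4 : ∑ i ∈ Finset.range N, (c i : ℂ) * ((q : ℂ) ^ (i * m) + (q : ℂ) ^ ((i + 1) * m)) =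
        ((q : ℂ) ^ m + 1) * ∑ i ∈ Finset.range N, (c i : ℂ) * (q : ℂ) ^ (i * m) := by
      rw [Finset.mul_sum]
      refine Finset.sum_congr rfl fun i _ => ?_
      rw [add_mul (i) 1 m, one_mul, pow_add]
      ring
    rw [e4]
    push_cast
    ring

end Pool.Agent.Y701.PE
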