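import Pool.Agent.Y701.PE.Var

/-!
The exact formula for the multiplicities modulo `l`.
-/

set_option autoImplicit false
set_option linter.all false
set_option maxHeartbeats 4000000

open PowerSeries FF Module
open scoped LinearAlgebra.Projectivization

namespace Pool.Agent.Y701.PE

open Pool.Agent.W343.BSD

section final

variable {k K k' L : Type} [Field k] [Finite k] [Field K] [Algebra k K] [FF.IsFF k K]
  [Field k'] [Finite k'] [Field L] [Algebra k' L] [Algebra k k'] [Algebra k L] [Algebra K L]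
  [IsScalarTower k K L] [IsScalarTower k k' L] [FF.IsFF k L] [FF.IsFF k' L]
  [FiniteDimensional K L] [IsGalois K L]

theorem kida_eq (hconst : ∀ a : K, IsAlgebraic k a → a ∈ (algebraMap k K).range)
    {l s : ℕ} [hl : Fact l.Prime] (hlk : (l : k) ≠ 0) (hn : finrank K L = l ^ s)
    {e : Place k K → ℕ} (he : ∀ (v : Place k K) (w : Place k L) (n : ℕ), Over w v n → n = e v)
    (B : Finset (Place k K)) (hB : ∀ v, v ∉ B → e v = 1)
    {P : Place k K → PowerSeries ℤ} {P' : Place k' L → PowerSeries ℤ}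
    {a : Place k K → ℕ → ℤ} {a' : Place k' L → ℕ → ℤ} (hP : ∀ v, IsExp (a v) (P v))
    (hP' : ∀ w, IsExp (a' w) (P' w))
    (haa : ∀ (v : Place k K) (w : Place k L) (n f : ℕ), Over w v n → w.deg = v.deg * f →
      ∀ m, m ≠ 0 → a' (upPlace w) m = a v (f * m))
    {Λ Λ' : PowerSeries ℤ}
    (hK : Λ * eulerProd (fun v : Place k K => v.deg) (fun v => sub v.deg (P v)) = 1)
    (hL : Λ' * eulerProd (fun w : Place k' L => w.deg) (fun w => sub w.deg (P' w)) = 1)
    {U V : Polynomial ℤ} (hV : V.coeff 0 = 1)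
    (hU : Λ * (V : PowerSeries ℤ) = (U : PowerSeries ℤ))
    {A C : Place k K → Polynomial ℤ} (hC : ∀ v ∈ B, (C v).coeff 0 = 1)
    (hAC : ∀ v ∈ B, P v * (C v : PowerSeries ℤ) = (A v : PowerSeries ℤ)) (c : ℕ)
    (R W : Polynomial ℤ) (hW : W.coeff 0 = 1)
    (hG : Λ' * (W : PowerSeries ℤ) = (R : PowerSeries ℤ)) :
    (mlt l (((Nat.card k : ℕ) : ZMod l) ^ c)⁻¹ (finrank k k') R +
        finrank K L * mlt l (((Nat.card k : ℕ) : ZMod l) ^ c)⁻¹ 1 V +
        ∑ v ∈ B, (finrank K L - finrank K L / e v) *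
          mlt l (((Nat.card k : ℕ) : ZMod l) ^ c)⁻¹ v.deg (C v) =
      mlt l (((Nat.card k : ℕ) : ZMod l) ^ c)⁻¹ (finrank k k') W +
        finrank K L * mlt l (((Nat.card k : ℕ) : ZMod l) ^ c)⁻¹ 1 U +
        ∑ v ∈ B, (finrank K L - finrank K L / e v) *
          mlt l (((Nat.card k : ℕ) : ZMod l) ^ c)⁻¹ v.deg (A v)) ∧
    ∀ m : ℕ, (R.map (Int.castRingHom ℚ)).rootMultiplicity (((Nat.card k' ^ c : ℕ) : ℚ)⁻¹) = m →
      finrank k k' * m ≤ mlt l (((Nat.card k : ℕ) : ZMod l) ^ c)⁻¹ (finrank k k') R := by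
  classical
  have hD := fun v : Place k K => exists_galoisFiber (L := L) v
  choose S e' f D using hD
  have hee : ∀ v, e' v = e v := fun v => by
    obtain ⟨w, hw⟩ := (D v).nonempty
    exact he v w _ ((D v).isOver w hw)
  obtain rfl : e' = e := funext hee
  have : FiniteDimensional k k' := Module.Finite.of_finite
  have hr : finrank k k' ≠ 0 := finrank_pos.ne'
  obtain ⟨i, hi⟩ := constants_pow (L := L) hconst hn hr
  have hq0 := card_ne_zero_mod (k := k) hlk
  set q : ZMod l := ((Nat.card k : ℕ) : ZMod l) with hq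
  have hdK : ∀ v : Place k K, v.deg ≠ 0 := fun w => (Pool.Agent.H525R3.FFp.deg_pos w).ne'
  have hdL : ∀ v : Place k L, v.deg ≠ 0 := fun w => (Pool.Agent.H525R3.FFp.deg_pos w).ne'
  -- the Euler products modulo `l`
  set g : Place k K → PowerSeries (ZMod l) := fun v => redL l (sub v.deg (P v)) with hg
  set g' : Place k L → PowerSeries (ZMod l) := fun w => redL l (sub w.deg (P' (upPlace w))) with hg'
  have hg1 : ∀ v, (X : PowerSeries (ZMod l)) ^ v.deg ∣ g v - 1 := by
    intro v
    have h := map_dvd (redL l) (sub_mod (hdK v) (hP v).1)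
    rwa [map_sub, map_one, map_pow, PowerSeries.map_X] at h
  have hg1' : ∀ w, (X : PowerSeries (ZMod l)) ^ w.deg ∣ g' w - 1 := by
    intro w
    have h := map_dvd (redL l) (sub_mod (hdL w) (hP' (upPlace w)).1)
    rwa [map_sub, map_one, map_pow, PowerSeries.map_X] at h
  have hgg : ∀ v, ∀ w ∈ S v, g' w = g v ^ f v := by
    intro v w hw
    obtain ⟨j, hj⟩ := fiber_pow (D v) hn
    have h1 := dwork (l := l) (i := j) (hP v) (hP' (upPlace w)) (by
      intro n hn0
      rw [← hj]
      exact haa v w _ (f v) ((D v).isOver w hw) ((D v).deg w hw) n hn0)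
    rw [← hj] at h1
    have hf0 : f v ≠ 0 := by
      rw [hj]
      exact pow_ne_zero _ hl.out.ne_zero
    show redL l (sub w.deg (P' (upPlace w))) = redL l (sub v.deg (P v)) ^ f v
    rw [(D v).deg w hw, ← sub_sub _ _ (hdK v) hf0, map_sub', h1, sub_pow' (hdK v), map_sub']
  have hK1 : redL l Λ * eulerProd (fun v : FF.Place k K => v.deg) g = 1 := by
    have h := congrArg (redL l) hK
    rwa [map_mul, map_one, map_eulerProd (fun n => places_fin n)] at h
  have hLk : expand (finrank k k') hr Λ' *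
      eulerProd (fun w : Place k L => w.deg) (fun w => sub w.deg (P' (upPlace w))) = 1 := by
    rw [euler_down hr fun w => (hP' w).1, ← map_mul, hL, map_one]
  have hL1 : redL l (expand (finrank k k') hr Λ') *
      eulerProd (fun v : FF.Place k L => v.deg) g' = 1 := by
    have h := congrArg (redL l) hLk
    rwa [map_mul, map_one, map_eulerProd (fun n => places_fin n)] at h
  set Q0 : Polynomial ℤ := Polynomial.expand ℤ (finrank k k') R with hQ0
  set W0 : Polynomial ℤ := Polynomial.expand ℤ (finrank k k') W with hW0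
  have hQ : redL l (expand (finrank k k') hr Λ') *
      ((W0.map (Int.castRingHom (ZMod l)) : Polynomial (ZMod l)) : PowerSeries (ZMod l)) =
      ((Q0.map (Int.castRingHom (ZMod l)) : Polynomial (ZMod l)) : PowerSeries (ZMod l)) := by
    rw [← redL_poly, ← redL_poly, ← map_mul, hW0, hQ0, coe_expand _ hr, coe_expand _ hr,
      ← map_mul, hG]
  have hWne : W0.map (Int.castRingHom (ZMod l)) ≠ 0 := map_ne_of_coeff (by
    rw [hW0, coeff_zero_expand (Nat.pos_of_ne_zero hr), hW])
  have hbound := kida_mult (a := fun v => (Polynomial.expand ℤ v.deg (A v)).map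
      (Int.castRingHom (ZMod l)))
    (b := fun v => (Polynomial.expand ℤ v.deg (C v)).map (Int.castRingHom (ZMod l)))
    (U := U.map (Int.castRingHom (ZMod l))) (V := V.map (Int.castRingHom (ZMod l)))
    hn D B hB hg1 hg1' hgg hK1 hL1 (map_ne_of_coeff hV) (by
      have h := congrArg (redL l) hU
      rwa [map_mul, redL_poly, redL_poly] at h) hWne hQ
    (fun v hv => map_ne_of_coeff (by
      rw [coeff_zero_expand (Nat.pos_of_ne_zero (hdK v)), hC v hv]))
    (fun v hv => by
      rw [← redL_poly, ← redL_poly, ← sub_poly (hdK v), ← sub_poly (hdK v), hg]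
      simp only
      rw [← map_mul, ← sub_mul (hdK v), hAC v hv]) (q ^ c)⁻¹
  have hQne : Q0.map (Int.castRingHom (ZMod l)) ≠ 0 := by
    intro h
    rw [h, Polynomial.coe_zero] at hQ
    rcases mul_eq_zero.1 hQ with h2 | h2
    · rw [h2, zero_mul] at hL1
      exact zero_ne_one hL1
    · exact hWne ((Polynomial.coe_eq_zero_iff).1 h2)
  constructor
  · have e1 : ∀ W : Polynomial ℤ, mlt l (q ^ c)⁻¹ 1 W =
        (W.map (Int.castRingHom (ZMod l))).rootMultiplicity (q ^ c)⁻¹ := by
      intro W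
      rw [mlt, Polynomial.expand_one]
    rw [hn, e1, e1]
    unfold mlt
    rw [← hW0, ← hQ0]
    exact hbound
  · intro m hm
    have hqq : Nat.card k' ^ c ≠ 0 := pow_ne_zero _ Nat.card_pos.ne'
    obtain ⟨G, hG'⟩ := Pool.Agent.TH943.KD.dvd_of_mult hqq hm
    have hcard : ((Nat.card k' : ℕ) : ZMod l) = q ^ finrank k k' := by
      rw [Module.natCard_eq_pow_finrank (K := k) (V := k'), hq]
      push_cast
      rfl
    have hQeq : Q0.map (Int.castRingHom (ZMod l)) =
        (1 - Polynomial.C (q ^ c) * Polynomial.X) ^ (finrank k k' * m) *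
          (Polynomial.expand (ZMod l) (finrank k k') (G.map (Int.castRingHom (ZMod l)))) := by
      rw [hQ0, hG', map_mul, map_pow, map_sub, map_one, map_mul, Polynomial.expand_C,
        Polynomial.expand_X,
        Polynomial.map_mul, Polynomial.map_pow, Polynomial.map_sub, Polynomial.map_one,
        Polynomial.map_mul, Polynomial.map_C, Polynomial.map_pow, Polynomial.map_X,
        Polynomial.map_expand]
      have h1 : (Int.castRingHom (ZMod l)) ((Nat.card k' ^ c : ℕ) : ℤ) =
          (q ^ c) ^ finrank k k' := by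
        rw [eq_intCast, Int.cast_natCast, Nat.cast_pow, hcard, ← pow_mul, ← pow_mul, mul_comm]
      rw [h1, pow_mul, hi, sub_pow_expChar_pow, one_pow, mul_pow, Polynomial.C_pow]
    unfold mlt
    rw [← hQ0, hQeq]
    rw [hQeq] at hQne
    have hlin : (1 - Polynomial.C (q ^ c) * Polynomial.X : Polynomial (ZMod l)) ≠ 0 := by
      intro h
      have h1 := congrArg (Polynomial.eval 0) h
      simp at h1
    rw [rm_mul _ (left_ne_zero_of_mul hQne) (right_ne_zero_of_mul hQne), rm_pow _ hlin,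
      rm_linear (pow_ne_zero c hq0), mul_one]
    exact Nat.le_add_right _ _

end final

section fin

variable {k K k' L : Type} [Field k] [Finite k] [Field K] [Algebra k K]
  [Field k'] [Finite k'] [Field L] [Algebra k' L] [Algebra k k'] [Algebra k L] [Algebra K L]
  [IsScalarTower k K L] [IsScalarTower k k' L] {n : ℕ}

theorem pencil_eq (hKc : IsCurveField k K) (hLc : IsCurveField k' L)
    {l : ℕ} [hl : Fact l.Prime] (hlk : (l : k) ≠ 0) (hgal : IsGalois K L)
    (hpow : ∃ s : ℕ, finrank K L = l ^ s)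
    {e : Place k K → ℕ} (he : ∀ (v : Place k K) (w : Place k' L) (n : ℕ), LiesOver w v n → n = e v)
    (B : Finset (Place k K)) (hB : ∀ v, v ∉ B → e v = 1) (c : ℕ → ℤ) (t : K)
    {I : Set (MvPolynomial (Fin (n + 1)) k)} {F G : MvPolynomial (Fin (n + 1)) k}
    {Λ Λ' : PowerSeries ℤ} (hK : IsLFunction k c t I F G Λ)
    (hL : IsLFunction k' c (algebraMap K L t) (MvPolynomial.map (algebraMap k k') '' I)
      (MvPolynomial.map (algebraMap k k') F) (MvPolynomial.map (algebraMap k k') G) Λ')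
    {U V : Polynomial ℤ} (hV : V.coeff 0 = 1)
    (hU : Λ * (V : PowerSeries ℤ) = (U : PowerSeries ℤ))
    {P : Place k K → PowerSeries ℤ} {A C : Place k K → Polynomial ℤ}
    (hP : ∀ v ∈ B, IsNumerator c v t I F G (P v) ∧
      P v * (C v : PowerSeries ℤ) = (A v : PowerSeries ℤ) ∧ (C v).coeff 0 = 1) (b : ℕ)
    (R W : Polynomial ℤ) (hW : W.coeff 0 = 1)
    (hR : Λ' * (W : PowerSeries ℤ) = (R : PowerSeries ℤ)) :
    (mlt l (((Nat.card k : ℕ) : ZMod l) ^ b)⁻¹ (finrank k k') R +
        finrank K L * mlt l (((Nat.card k : ℕ) : ZMod l) ^ b)⁻¹ 1 V +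
        ∑ v ∈ B, (finrank K L - finrank K L / e v) *
          mlt l (((Nat.card k : ℕ) : ZMod l) ^ b)⁻¹ (S.deg v) (C v) =
      mlt l (((Nat.card k : ℕ) : ZMod l) ^ b)⁻¹ (finrank k k') W +
        finrank K L * mlt l (((Nat.card k : ℕ) : ZMod l) ^ b)⁻¹ 1 U +
        ∑ v ∈ B, (finrank K L - finrank K L / e v) *
          mlt l (((Nat.card k : ℕ) : ZMod l) ^ b)⁻¹ (S.deg v) (A v)) ∧
    ∀ m : ℕ, (R.map (Int.castRingHom ℚ)).rootMultiplicity (((Nat.card k' ^ b : ℕ) : ℚ)⁻¹) = m →
      finrank k k' * m ≤ mlt l (((Nat.card k : ℕ) : ZMod l) ^ b)⁻¹ (finrank k k') R := by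
  obtain ⟨s, hs⟩ := hpow
  have i0 : FF.IsFF k K := ⟨hKc.essFiniteType, hKc.trdeg_eq_one⟩
  have i1 : FiniteDimensional K L := Module.finite_of_finrank_pos (by
    rw [hs]; exact pow_pos hl.out.pos s)
  have i2 : FF.IsFF k L := isFF_of_finite (K := K)
  have i3 : FF.IsFF k' L := ⟨hLc.essFiniteType, hLc.trdeg_eq_one⟩
  have i4 := hgal
  simp only [S.deg_eq]
  obtain ⟨Q, hQ, hKe⟩ := hK
  obtain ⟨Q', hQ', hLe⟩ := hL
  choose a ha hae using hQ
  choose a' ha' hae' using hQ'
  simp only [S.deg_eq] at hKe hLe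
  refine kida_eq hKc.algClosed hlk hs (fun v w n hov => he v (upPlace (k' := k') w) n
    ⟨hov.1, hov.2⟩) B hB hae hae' ?_ hKe hLe hV hU (fun v hv => (hP v hv).2.2) ?_ b R W hW hR
  · intro v w n' f h hd m' hm'
    exact trace_over c t h hd (ha v) (ha' (upPlace w)) hm'
  · intro v hv
    rw [← (hP v hv).2.1, numerator_unique c v t ⟨a v, ha v, hae v⟩ (hP v hv).1]

theorem cc_lfun' (hLc : IsCurveField k' L) {c : ℕ → ℤ} {t : L}
    {I : Set (MvPolynomial (Fin (n + 1)) k')} {F G : MvPolynomial (Fin (n + 1)) k'}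
    {Λ : PowerSeries ℤ} (hΛ : IsLFunction k' c t I F G Λ) :
    PowerSeries.constantCoeff Λ = 1 := by
  have i3 : FF.IsFF k' L := ⟨hLc.essFiniteType, hLc.trdeg_eq_one⟩
  exact cc_lfun hΛ

end fin

end Pool.Agent.Y701.PE
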