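import Pool.Agent.Y701.QF.Pw

/-!
Power series given by their power sums, and the congruence of Dwork.
-/

set_option autoImplicit false
set_option linter.all false
set_option maxHeartbeats 1000000

open PowerSeries

namespace Pool.Agent.Y701.PE

open Pool.Agent.Y701.QF

section defs

variable {R : Type*} [CommRing R]

/-- The series `P(T ^ d)`. -/
noncomputable def sub (d : ℕ) (P : PowerSeries R) : PowerSeries R :=
  PowerSeries.mk fun n => if d ∣ n then coeff (n / d) P else 0

theorem sub_eq {d : ℕ} (hd : d ≠ 0) (P : PowerSeries R) : sub d P = expand d hd P := by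
  ext n
  rw [sub, coeff_mk, coeff_expand]

theorem coeff_sub (d : ℕ) (P : PowerSeries R) (n : ℕ) :
    coeff n (sub d P) = if d ∣ n then coeff (n / d) P else 0 := by
  rw [sub, coeff_mk]

theorem map_sub' {S : Type*} [CommRing S] (φ : R →+* S) (d : ℕ) (P : PowerSeries R) :
    PowerSeries.map φ (sub d P) = sub d (PowerSeries.map φ P) := by
  ext n
  rw [coeff_map, coeff_sub, coeff_sub]
  split_ifs
  · rw [coeff_map]
  · rw [map_zero]

theorem sub_sub (d e : ℕ) (hd : d ≠ 0) (he : e ≠ 0) (P : PowerSeries R) :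
    sub d (sub e P) = sub (d * e) P := by
  ext n
  rw [coeff_sub, coeff_sub, coeff_sub]
  by_cases h : d ∣ n
  · obtain ⟨m, rfl⟩ := h
    rw [if_pos (dvd_mul_right _ _), Nat.mul_div_cancel_left _ (Nat.pos_of_ne_zero hd)]
    have h1 : e ∣ m ↔ d * e ∣ d * m := (Nat.mul_dvd_mul_iff_left (Nat.pos_of_ne_zero hd)).symm
    by_cases h2 : e ∣ m
    · rw [if_pos h2, if_pos (h1.1 h2), Nat.mul_div_mul_left _ _ (Nat.pos_of_ne_zero hd)]
    · rw [if_neg h2, if_neg fun h3 => h2 (h1.2 h3)]
  · rw [if_neg h, if_neg]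
    intro h1
    exact h ((dvd_mul_right d e).trans h1)

theorem sub_mod {d : ℕ} (hd : d ≠ 0) {P : PowerSeries R} (hP : constantCoeff P = 1) :
    (X : PowerSeries R) ^ d ∣ sub d P - 1 := by
  rw [X_pow_dvd_iff]
  intro m hm
  rw [map_sub, coeff_sub, coeff_one]
  by_cases h0 : m = 0
  · subst h0
    rw [if_pos (dvd_zero _), Nat.zero_div, coeff_zero_eq_constantCoeff_apply, hP, if_pos rfl,
      sub_self]
  · rw [if_neg h0, if_neg, sub_zero]
    intro h
    exact absurd (Nat.le_of_dvd (Nat.pos_of_ne_zero h0) h) (by omega)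

theorem sub_mul {d : ℕ} (hd : d ≠ 0) (P Q : PowerSeries R) :
    sub d (P * Q) = sub d P * sub d Q := by
  rw [sub_eq hd, sub_eq hd, sub_eq hd, map_mul]

theorem cc_sub (d : ℕ) (P : PowerSeries R) :
    constantCoeff (sub d P) = constantCoeff P := by
  rw [← coeff_zero_eq_constantCoeff_apply, coeff_sub, if_pos (dvd_zero _), Nat.zero_div,
    coeff_zero_eq_constantCoeff_apply]

end defs

/-- `P = exp (- ∑ a_n T ^ n / n)`. -/
def IsExp (a : ℕ → ℤ) (P : PowerSeries ℤ) : Prop :=
  constantCoeff P = 1 ∧ ∀ n : ℕ, (n : ℤ) * coeff n P =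
    -∑ i ∈ Finset.range n, coeff i P * a (n - i)

/-- the series with complex coefficients -/
noncomputable abbrev toC : PowerSeries ℤ →+* PowerSeries ℂ := PowerSeries.map (Int.castRingHom ℂ)

theorem toC_inj : Function.Injective toC :=
  PowerSeries.map_injective _ (RingHom.injective_int _)

theorem cc_toC {P : PowerSeries ℤ} (h : constantCoeff P = 1) : constantCoeff (toC P) = 1 := by
  rw [← coeff_zero_eq_constantCoeff_apply, coeff_map, coeff_zero_eq_constantCoeff_apply, h,
    map_one]

theorem pw_of {a : ℕ → ℤ} {P : PowerSeries ℤ} (h : IsExp a P) {n : ℕ} (hn : n ≠ 0) :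
    coeff n (pw (toC P)) = -(a n : ℂ) := by
  have hc := cc_toC h.1
  have h1 : pw (toC P) = PowerSeries.mk fun n => if n = 0 then 0 else -(a n : ℂ) := by
    apply pw_unique (by rw [hc]; exact one_ne_zero)
    ext m
    rw [coeff_theta, coeff_map, mul_comm (PowerSeries.mk _), coeff_mul,
      Finset.Nat.sum_antidiagonal_eq_sum_range_succ_mk, Finset.sum_range_succ]
    have e1 := congrArg (Int.cast (R := ℂ)) (h.2 m)
    push_cast at e1
    simp only [eq_intCast]
    rw [e1]
    simp only [coeff_mk, Nat.sub_self, if_true, mul_zero, add_zero, coeff_map, eq_intCast]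
    rw [← Finset.sum_neg_distrib]
    refine Finset.sum_congr rfl fun i hi => ?_
    rw [Finset.mem_range] at hi
    rw [if_neg (by omega)]
    ring
  rw [h1, coeff_mk, if_neg hn]

theorem pw_sub {d : ℕ} (hd : d ≠ 0) {F : PowerSeries ℂ} (hF : constantCoeff F = 1) (n : ℕ) :
    coeff n (pw (sub d F)) = if d ∣ n then (d : ℂ) * coeff (n / d) (pw F) else 0 := by
  have hF' : constantCoeff F ≠ 0 := by rw [hF]; exact one_ne_zero
  have h1 : theta (sub d F) = PowerSeries.C (d : ℂ) * sub d (theta F) := by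
    ext m
    rw [coeff_theta, coeff_C_mul, coeff_sub, coeff_sub]
    split_ifs with h
    · rw [coeff_theta]
      obtain ⟨j, rfl⟩ := h
      rw [Nat.mul_div_cancel_left _ (Nat.pos_of_ne_zero hd)]
      push_cast
      ring
    · simp
  have h2 : pw (sub d F) = PowerSeries.C (d : ℂ) * sub d (pw F) := by
    apply pw_unique
    · rw [cc_sub]
      exact hF'
    · rw [h1, mul_assoc, ← sub_mul hd, pw_spec hF']
  rw [h2, coeff_C_mul, coeff_sub]
  split_ifs
  · rfl
  · rw [mul_zero]

/-- the congruence of Dwork -/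
theorem dwork {l i : ℕ} [hl : Fact l.Prime] {a b : ℕ → ℤ} {P Q : PowerSeries ℤ} (hP : IsExp a P)
    (hQ : IsExp b Q) (h : ∀ n, n ≠ 0 → b n = a (l ^ i * n)) :
    PowerSeries.map (Int.castRingHom (ZMod l)) (sub (l ^ i) Q) =
      PowerSeries.map (Int.castRingHom (ZMod l)) P ^ l ^ i := by
  classical
  set f := l ^ i with hf
  have hf0 : f ≠ 0 := pow_ne_zero _ hl.out.ne_zero
  set ζ : ℂ := Complex.exp (2 * Real.pi * Complex.I / f) with hζdef
  have hζ : IsPrimitiveRoot ζ f := Complex.isPrimitiveRoot_exp f hf0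
  -- the universal difference
  set H : PowerSeries (Polynomial ℤ) := ∏ j ∈ Finset.range f,
    rescale ((Polynomial.X : Polynomial ℤ) ^ j) (PowerSeries.map Polynomial.C P) -
      PowerSeries.map Polynomial.C (sub f Q) with hH
  have hmapr : ∀ {S : Type} [CommRing S] (φ : Polynomial ℤ →+* S) (u : Polynomial ℤ)
      (G : PowerSeries (Polynomial ℤ)), PowerSeries.map φ (rescale u G) =
        rescale (φ u) (PowerSeries.map φ G) := by
    intro S _ φ u G
    ext m
    rw [coeff_map, coeff_rescale, coeff_rescale, coeff_map, map_mul, map_pow]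
  have hmapC : ∀ {S : Type} [CommRing S] (φ : Polynomial ℤ →+* S) (G : PowerSeries ℤ),
      PowerSeries.map φ (PowerSeries.map Polynomial.C G) =
        PowerSeries.map (Int.castRingHom S) G := by
    intro S _ φ G
    ext m
    rw [coeff_map, coeff_map, coeff_map]
    exact congrFun (congrArg DFunLike.coe (RingHom.ext_int (φ.comp Polynomial.C)
      (Int.castRingHom S))) _
  -- evaluation at the root of unity
  have h1 : PowerSeries.map (Polynomial.aeval ζ : Polynomial ℤ →ₐ[ℤ] ℂ).toRingHom H = 0 := by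
    rw [hH, map_sub, map_prod, sub_eq_zero]
    have hcP := cc_toC hP.1
    have hcQ := cc_toC hQ.1
    have e1 : ∀ j ∈ Finset.range f, PowerSeries.map
        (Polynomial.aeval ζ : Polynomial ℤ →ₐ[ℤ] ℂ).toRingHom
        (rescale ((Polynomial.X : Polynomial ℤ) ^ j) (PowerSeries.map Polynomial.C P)) =
          rescale (ζ ^ j) (toC P) := by
      intro j _
      rw [hmapr, hmapC]
      congr 2
      show Polynomial.aeval ζ (Polynomial.X ^ j) = ζ ^ j
      rw [map_pow, Polynomial.aeval_X]
    rw [Finset.prod_congr rfl e1, hmapC]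
    have hr : ∀ j ∈ Finset.range f, constantCoeff (rescale (ζ ^ j) (toC P)) ≠ 0 := by
      intro j _
      rw [← coeff_zero_eq_constantCoeff_apply, coeff_rescale, pow_zero, one_mul,
        coeff_zero_eq_constantCoeff_apply, hcP]
      exact one_ne_zero
    have e2 : PowerSeries.map (Int.castRingHom ℂ) (sub f Q) = sub f (toC Q) := map_sub' _ _ _
    rw [e2]
    apply eq_of_pw
    · rw [map_prod]
      refine Finset.prod_eq_one fun j _ => ?_
      rw [← coeff_zero_eq_constantCoeff_apply, coeff_rescale, pow_zero, one_mul,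
        coeff_zero_eq_constantCoeff_apply, hcP]
    · rw [cc_sub, hcQ]
    · intro n hn
      rw [pw_prod _ _ hr, map_sum, pw_sub hf0 hcQ]
      have e3 : ∀ j ∈ Finset.range f, coeff n (pw (rescale (ζ ^ j) (toC P))) =
          (ζ ^ n) ^ j * -(a n : ℂ) := by
        intro j _
        rw [coeff_pw_rescale _ (by rw [hcP]; exact one_ne_zero), pw_of hP hn, ← pow_mul,
          ← pow_mul, mul_comm j n]
      rw [Finset.sum_congr rfl e3, ← Finset.sum_mul]
      by_cases hd : f ∣ n
      · obtain ⟨m, rfl⟩ := hd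
        have hm : m ≠ 0 := by
          rintro rfl
          exact hn (mul_zero _)
        rw [if_pos (dvd_mul_right _ _), Nat.mul_div_cancel_left _ (Nat.pos_of_ne_zero hf0),
          pw_of hQ hm, h m hm, pow_mul, hζ.pow_eq_one, one_pow]
        simp
      · rw [if_neg hd]
        have h2 : ζ ^ n ≠ 1 := fun h3 => hd ((hζ.pow_eq_one_iff_dvd n).1 h3)
        have h3 := mul_neg_geom_sum (ζ ^ n) f
        rw [← pow_mul, mul_comm n f, pow_mul, hζ.pow_eq_one, one_pow, sub_self] at h3
        rw [(mul_eq_zero.1 h3).resolve_left (sub_ne_zero.2 h2.symm), zero_mul]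
  -- evaluation at one
  have h2 : ∀ n, (l : ℤ) ∣ (coeff n H).eval 1 := by
    intro n
    have e1 := congrArg (coeff n) h1
    rw [coeff_map, map_zero] at e1
    have e2 : Polynomial.aeval ζ (coeff n H) = 0 := e1
    have e3 : Polynomial.cyclotomic f ℤ ∣ coeff n H := by
      rw [Polynomial.cyclotomic_eq_minpoly hζ (Nat.pos_of_ne_zero hf0)]
      exact minpoly.isIntegrallyClosed_dvd (hζ.isIntegral (Nat.pos_of_ne_zero hf0)) e2
    obtain ⟨g, hg⟩ := e3
    rw [hg, Polynomial.eval_mul]
    rcases Nat.eq_zero_or_pos i with h0 | h0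
    · rw [hf, h0, pow_zero, Polynomial.cyclotomic_one]
      simp
    · obtain ⟨j, rfl⟩ := Nat.exists_eq_succ_of_ne_zero h0.ne'
      rw [hf, Polynomial.eval_one_cyclotomic_prime_pow]
      exact dvd_mul_right _ _
  have h3 : PowerSeries.map ((Int.castRingHom (ZMod l)).comp (Polynomial.evalRingHom 1)) H = 0 := by
    ext n
    rw [coeff_map, map_zero]
    show ((((coeff n H).eval 1 : ℤ)) : ZMod l) = 0
    rw [ZMod.intCast_zmod_eq_zero_iff_dvd]
    exact h2 n
  rw [hH, map_sub, map_prod, sub_eq_zero] at h3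
  rw [hmapC] at h3
  rw [← h3]
  have e1 : ∀ j ∈ Finset.range f, PowerSeries.map
      ((Int.castRingHom (ZMod l)).comp (Polynomial.evalRingHom 1))
      (rescale ((Polynomial.X : Polynomial ℤ) ^ j) (PowerSeries.map Polynomial.C P)) =
        PowerSeries.map (Int.castRingHom (ZMod l)) P := by
    intro j _
    rw [hmapr, hmapC]
    have e2 : ((Int.castRingHom (ZMod l)).comp (Polynomial.evalRingHom 1))
        ((Polynomial.X : Polynomial ℤ) ^ j) = 1 := by
      simp
    rw [e2, rescale_one]
    rfl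
  rw [Finset.prod_congr rfl e1, Finset.prod_const, Finset.card_range]

end Pool.Agent.Y701.PE
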