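import Pool.Agent.W343.BSD.Stmt
import Pool.Agent.Y701.PE.Ser

/-!
Pencils `F = t G` over function fields: the fibres, the numerators of their zeta functions and the
product of these over the places.
-/

set_option autoImplicit false
set_option linter.all false
set_option maxHeartbeats 4000000

open FF Module Pool.Agent.W343.BSD
open scoped LinearAlgebra.Projectivization

namespace Pool.Agent.Y701.PE

section defs

variable {k L : Type} [Field k] [Field L] [Algebra k L] {n : ℕ}

/-- The map from the field of constants to the residue field of a place. -/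
noncomputable def cst (w : FF.Place k L) : k →+* S.Res w :=
  (IsLocalRing.residue w.O).comp ((algebraMap k L).codRestrict w.O (fun c => w.reg_const c))

open Classical in
/-- The value of `t` at the place `w`, with `none` for infinity. -/
noncomputable def value (w : FF.Place k L) (t : L) : Option (S.Res w) :=
  if w.Reg t then some (S.red w t) else none

/-- The points over `E` of the subvariety of the projective space defined by the forms in `I` and by
`F = x G` (by `G = 0` for `x = ∞`), where `E` is an extension of `k` by `ι`. -/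
def Fibre (E : Type) [Field E] (ι : k →+* E) (I : Set (MvPolynomial (Fin (n + 1)) k))
    (F G : MvPolynomial (Fin (n + 1)) k) (x : Option E) : Set (ℙ E (Fin (n + 1) → E)) :=
  {y | (∀ f ∈ I, f.eval₂ ι y.rep = 0) ∧
    x.elim (G.eval₂ ι y.rep = 0) fun x => F.eval₂ ι y.rep = x * G.eval₂ ι y.rep}

/-- `a m` is the difference of `c Q` and the number of points with coordinates in `E` of the fibre at
the place `w`, for each extension `E` of degree `m` of the residue field, where `Q` is the number of
elements of `E`. -/
def IsTrace (c : ℕ → ℤ) (w : FF.Place k L) (t : L) (I : Set (MvPolynomial (Fin (n + 1)) k))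
    (F G : MvPolynomial (Fin (n + 1)) k) (a : ℕ → ℤ) : Prop :=
  ∀ (m : ℕ) (E : Type) [Field E] [Finite E] (j : S.Res w →+* E), 0 < m →
    Nat.card E = Nat.card (S.Res w) ^ m →
    a m = c (Nat.card E) - Nat.card (Fibre E (j.comp (cst w)) I F G ((value w t).map j))

/-- `P = exp (-∑ a_m T ^ m / m)`, where `a_m` is as in the definition of `IsTrace`. -/
def IsNumerator (c : ℕ → ℤ) (w : FF.Place k L) (t : L) (I : Set (MvPolynomial (Fin (n + 1)) k))
    (F G : MvPolynomial (Fin (n + 1)) k) (P : PowerSeries ℤ) : Prop :=
  ∃ a : ℕ → ℤ, IsTrace c w t I F G a ∧ IsExp a P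

/-- `Λ = ∏ P_w(T ^ (deg w))⁻¹`, the product over the places `w` of `L` over `k`. -/
def IsLFunction (k : Type) {L : Type} [Field k] [Field L] [Algebra k L] {n : ℕ} (c : ℕ → ℤ) (t : L)
    (I : Set (MvPolynomial (Fin (n + 1)) k)) (F G : MvPolynomial (Fin (n + 1)) k)
    (Λ : PowerSeries ℤ) : Prop :=
  ∃ P : FF.Place k L → PowerSeries ℤ, (∀ w, IsNumerator c w t I F G (P w)) ∧
    Λ * eulerProd (fun w : FF.Place k L => S.deg w) (fun w => sub (S.deg w) (P w)) = 1

end defs

section ov

variable {k K k' L : Type} [Field k] [Finite k] [Field K] [Algebra k K] [FF.IsFF k K]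
  [Field k'] [Finite k'] [Field L] [Algebra k' L] [Algebra k k'] [Algebra k L] [Algebra K L]
  [IsScalarTower k K L] [IsScalarTower k k' L] [FF.IsFF k L] [FF.IsFF k' L] {n : ℕ}

theorem card_res (v : Place k K) : Nat.card (S.Res v) = Nat.card k ^ v.deg :=
  Module.natCard_eq_pow_finrank (K := k) (V := v.RF)

theorem cst_apply (v : Place k K) (c : k) : cst v c = v.red (algebraMap k K c) := by
  rw [v.red_of_reg (v.reg_const c)]
  rfl

theorem fibre_map (E : Type) [Field E] (ι : k' →+* E) (I : Set (MvPolynomial (Fin (n + 1)) k))
    (F G : MvPolynomial (Fin (n + 1)) k) (x : Option E) :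
    Fibre E ι (MvPolynomial.map (algebraMap k k') '' I) (MvPolynomial.map (algebraMap k k') F)
      (MvPolynomial.map (algebraMap k k') G) x = Fibre E (ι.comp (algebraMap k k')) I F G x := by
  have e : ∀ (f : MvPolynomial (Fin (n + 1)) k) (y : Fin (n + 1) → E),
      (MvPolynomial.map (algebraMap k k') f).eval₂ ι y = f.eval₂ (ι.comp (algebraMap k k')) y :=
    fun f y => MvPolynomial.eval₂_map _ _ _ _
  unfold Fibre
  simp only [Set.forall_mem_image, e]

/-- the traces over a place of an extension -/
theorem trace_over (c : ℕ → ℤ) (t : K) {I : Set (MvPolynomial (Fin (n + 1)) k)}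
    {F G : MvPolynomial (Fin (n + 1)) k} {v : Place k K} {w : Place k L} {e f : ℕ}
    (h : Over w v e) (hd : w.deg = v.deg * f) {a a' : ℕ → ℤ} (ha : IsTrace c v t I F G a)
    (ha' : IsTrace c (upPlace (k' := k') w) (algebraMap K L t)
      (MvPolynomial.map (algebraMap k k') '' I) (MvPolynomial.map (algebraMap k k') F)
      (MvPolynomial.map (algebraMap k k') G) a') {m : ℕ} (hm : m ≠ 0) : a' m = a (f * m) := by
  classical
  set w' : Place k' L := upPlace (k' := k') w with hw'
  have hfin : Finite (S.Res w') := by
    have h1 : Finite w.RF := Module.finite_of_finite k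
    exact h1
  obtain ⟨p, hp⟩ := CharP.exists (S.Res w')
  have : Fact p.Prime := ⟨CharP.char_is_prime (S.Res w') p⟩
  haveI : NeZero m := ⟨hm⟩
  set E := FiniteField.Extension (S.Res w') p m with hE
  have hcard : Nat.card E = Nat.card (S.Res w') ^ m := by
    rw [Module.natCard_eq_pow_finrank (K := S.Res w') (V := E),
      FiniteField.finrank_extension (S.Res w') p m]
  have hfE : Finite E := inferInstance
  set j : S.Res w' →+* E := algebraMap (S.Res w') E with hj
  have h1 := ha' m E j (Nat.pos_of_ne_zero hm) hcard
  have hres : Nat.card (S.Res w') = Nat.card (S.Res v) ^ f := by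
    have h2 : Nat.card (S.Res w') = Nat.card (S.Res w) := rfl
    rw [h2, card_res, card_res, hd, pow_mul]
  have hf0 : 0 < f := by
    rcases Nat.eq_zero_or_pos f with h0 | h0
    · rw [h0, mul_zero] at hd
      exact absurd hd (Pool.Agent.H525R3.FFp.deg_pos w).ne'
    · exact h0
  let r : S.Res v →+* S.Res w' := (h.resMap : v.RF →ₐ[k] w.RF).toRingHom
  have h2 := ha (f * m) E (j.comp r) (Nat.mul_pos hf0 (Nat.pos_of_ne_zero hm)) (by
    rw [hcard, hres, pow_mul])
  rw [h1, h2, fibre_map]
  have e1 : ((j.comp (cst w')).comp (algebraMap k k')) = ((j.comp r).comp (cst v)) := by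
    ext c
    show j (cst w' (algebraMap k k' c)) = j (r (cst v c))
    congr 1
    rw [cst_apply, cst_apply]
    have h3 := h.resMap_red (v.reg_const c)
    have h4 : algebraMap K L (algebraMap k K c) = algebraMap k' L (algebraMap k k' c) := by
      rw [← IsScalarTower.algebraMap_apply k K L, ← IsScalarTower.algebraMap_apply k k' L]
    rw [h4] at h3
    exact h3.symm
  have e2 : (value w' (algebraMap K L t)).map j = (value v t).map (j.comp r) := by
    unfold value
    have h3 : w'.Reg (algebraMap K L t) ↔ v.Reg t := h.reg
    by_cases h4 : v.Reg t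
    · rw [if_pos h4, if_pos (h3.2 h4)]
      show some (j (S.red w' (algebraMap K L t))) = some (j (r (S.red v t)))
      congr 2
      exact (h.resMap_red h4).symm
    · rw [if_neg h4, if_neg fun h5 => h4 (h3.1 h5)]
      rfl
  rw [e1, e2]

end ov

end Pool.Agent.Y701.PE
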