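import Pool.Agent.Y701.PE.Ser
import Pool.Agent.W343.BSD.KidaFinal

/-!
The comparison of Euler products over Galois extensions of prime power degree, modulo the prime.
-/

set_option autoImplicit false
set_option linter.all false
set_option maxHeartbeats 4000000

open PowerSeries FF Module

namespace Pool.Agent.Y701.PE

open Pool.Agent.W343.BSD

section ext

variable {k K L : Type} [Field k] [Finite k] [Field K] [Algebra k K] [FF.IsFF k K] [Field L]
  [Algebra k L] [Algebra K L] [IsScalarTower k K L] [FF.IsFF k L] [FiniteDimensional K L]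
  [IsGalois K L]

theorem kida_series {l s : ℕ} [Fact l.Prime] (hn : finrank K L = l ^ s)
    {S : Place k K → Finset (Place k L)} {e f : Place k K → ℕ}
    (D : ∀ v, GaloisFiber v (S v) (e v) (f v)) (B : Finset (Place k K))
    (hB : ∀ v, v ∉ B → e v = 1) {g : Place k K → PowerSeries (ZMod l)}
    {g' : Place k L → PowerSeries (ZMod l)} (hg : ∀ v, (X : PowerSeries (ZMod l)) ^ v.deg ∣ g v - 1)
    (hg' : ∀ w, (X : PowerSeries (ZMod l)) ^ w.deg ∣ g' w - 1)
    (hgg : ∀ v, ∀ w ∈ S v, g' w = g v ^ f v) {p p' : PowerSeries (ZMod l)}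
    (hK : p * eulerProd (fun v : FF.Place k K => v.deg) g = 1)
    (hL : p' * eulerProd (fun v : FF.Place k L => v.deg) g' = 1) :
    p ^ l ^ s * ∏ v ∈ B, g v ^ l ^ s = p' * ∏ v ∈ B, g v ^ (l ^ s / e v) := by
  classical
  set Φ : Place k K → PowerSeries (ZMod l) := fun v => ∏ w ∈ S v, g' w with hΦ
  set W : Place k K → PowerSeries (ZMod l) :=
    fun v => ∏ _i ∈ Finset.range (l ^ s), g v with hW
  have hfpos : ∀ v, 0 < f v := fun v => by
    rcases Nat.eq_zero_or_pos (f v) with h0 | h0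
    · have h1 := (D v).mul
      rw [h0, mul_zero, mul_zero] at h1
      have : 0 < finrank K L := finrank_pos
      omega
    · exact h0
  have hepos : ∀ v, 0 < e v := fun v => by
    rcases Nat.eq_zero_or_pos (e v) with h0 | h0
    · have h1 := (D v).mul
      rw [h0, zero_mul, mul_zero] at h1
      have : 0 < finrank K L := finrank_pos
      omega
    · exact h0
  have hΦe : ∀ v, Φ v = g v ^ (l ^ s / e v) := by
    intro v
    show ∏ w ∈ S v, g' w = _
    rw [Finset.prod_congr rfl (hgg v), Finset.prod_const, ← pow_mul]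
    congr 1
    rw [← hn, ← (D v).mul, show (S v).card * (e v * f v) = e v * (f v * (S v).card) by ring,
      Nat.mul_div_cancel_left _ (hepos v)]
  have hΦ1 : ∀ v, (X : PowerSeries (ZMod l)) ^ v.deg ∣ Φ v - 1 := by
    intro v
    have h := prod_congr_mod (S v) g' (fun _ => 1) v.deg (fun w hw => (pow_dvd_pow _ (by
        rw [(D v).deg w hw]
        exact Nat.le_mul_of_pos_right _ (hfpos v))).trans (hg' w))
    rwa [Finset.prod_const_one] at h
  have hW1 : ∀ v, (X : PowerSeries (ZMod l)) ^ v.deg ∣ W v - 1 := by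
    intro v
    have h := prod_congr_mod (Finset.range (l ^ s))
      (fun _ => g v) (fun _ => 1) v.deg (fun w hw => hg v)
    rwa [Finset.prod_const_one] at h
  have hgood : ∀ v, v ∉ B → Φ v = W v := by
    intro v hv
    rw [hΦe v, hB v hv, Nat.div_one]
    show _ = ∏ _i ∈ Finset.range (l ^ s), g v
    rw [Finset.prod_const, Finset.card_range]
  have key := fin_factor' (fun n => places_fin n) hΦ1 hW1 B hgood
  rw [hΦ, euler_fiber D hg'] at key
  rw [hW, eulerProd_prod (fun n => places_fin n) (Finset.range (l ^ s))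
    (fun _ v => g v) (fun _ v => hg v)] at key
  simp only [Finset.prod_const, Finset.card_range] at key
  have e1 : ∏ v ∈ B, ∏ w ∈ S v, g' w = ∏ v ∈ B, g v ^ (l ^ s / e v) :=
    Finset.prod_congr rfl fun v _ => hΦe v
  rw [e1] at key
  set EK := eulerProd (fun v : FF.Place k K => v.deg) g
  set EL := eulerProd (fun v : FF.Place k L => v.deg) g'
  have hKn : p ^ l ^ s * EK ^ l ^ s = 1 := by rw [← mul_pow, hK, one_pow]
  linear_combination p ^ l ^ s * p' * key -
    p ^ l ^ s * (∏ v ∈ B, g v ^ l ^ s) * hL +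
    p' * (∏ v ∈ B, g v ^ (l ^ s / e v)) * hKn

/-- the multiplicities -/
theorem kida_mult {l s : ℕ} [Fact l.Prime] (hn : finrank K L = l ^ s)
    {S : Place k K → Finset (Place k L)} {e f : Place k K → ℕ}
    (D : ∀ v, GaloisFiber v (S v) (e v) (f v)) (B : Finset (Place k K))
    (hB : ∀ v, v ∉ B → e v = 1) {g : Place k K → PowerSeries (ZMod l)}
    {g' : Place k L → PowerSeries (ZMod l)} (hg : ∀ v, (X : PowerSeries (ZMod l)) ^ v.deg ∣ g v - 1)
    (hg' : ∀ w, (X : PowerSeries (ZMod l)) ^ w.deg ∣ g' w - 1)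
    (hgg : ∀ v, ∀ w ∈ S v, g' w = g v ^ f v) {p p' : PowerSeries (ZMod l)}
    (hK : p * eulerProd (fun v : FF.Place k K => v.deg) g = 1)
    (hL : p' * eulerProd (fun v : FF.Place k L => v.deg) g' = 1)
    {U V Q W' : Polynomial (ZMod l)} (hV : V ≠ 0) (hU : p * (V : PowerSeries (ZMod l)) = U)
    (hW0 : W' ≠ 0) (hQ : p' * (W' : PowerSeries (ZMod l)) = (Q : PowerSeries (ZMod l))) {a b : Place k K → Polynomial (ZMod l)}
    (hb0 : ∀ v ∈ B, b v ≠ 0) (hab : ∀ v ∈ B, g v * (b v : PowerSeries (ZMod l)) = a v)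
    (x : ZMod l) :
    Q.rootMultiplicity x + l ^ s * V.rootMultiplicity x +
        ∑ v ∈ B, (l ^ s - l ^ s / e v) * (b v).rootMultiplicity x =
      W'.rootMultiplicity x + l ^ s * U.rootMultiplicity x +
        ∑ v ∈ B, (l ^ s - l ^ s / e v) * (a v).rootMultiplicity x := by
  classical
  have hid := kida_series hn D B hB hg hg' hgg hK hL
  have hpa : (∏ v ∈ B, g v ^ l ^ s) * (∏ v ∈ B, (b v : PowerSeries (ZMod l)) ^ l ^ s) =
      ∏ v ∈ B, (a v : PowerSeries (ZMod l)) ^ l ^ s := by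
    rw [← Finset.prod_mul_distrib]
    exact Finset.prod_congr rfl fun v hv => by rw [← mul_pow, hab v hv]
  have hpe : (∏ v ∈ B, g v ^ (l ^ s / e v)) *
      (∏ v ∈ B, (b v : PowerSeries (ZMod l)) ^ (l ^ s / e v)) =
      ∏ v ∈ B, (a v : PowerSeries (ZMod l)) ^ (l ^ s / e v) := by
    rw [← Finset.prod_mul_distrib]
    exact Finset.prod_congr rfl fun v hv => by rw [← mul_pow, hab v hv]
  have hpow : p ^ l ^ s * (V : PowerSeries (ZMod l)) ^ l ^ s =
      (U : PowerSeries (ZMod l)) ^ l ^ s := by rw [← mul_pow, hU]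
  have hid2 : ((W' * U ^ l ^ s * (∏ v ∈ B, a v ^ l ^ s) * ∏ v ∈ B, b v ^ (l ^ s / e v) :
      Polynomial (ZMod l)) : PowerSeries (ZMod l)) =
      ((Q * V ^ l ^ s * (∏ v ∈ B, a v ^ (l ^ s / e v)) * ∏ v ∈ B, b v ^ l ^ s :
        Polynomial (ZMod l)) : PowerSeries (ZMod l)) := by
    simp only [Polynomial.coe_mul, Polynomial.coe_pow, coe_prod']
    rw [← hpa, ← hpe, ← hpow, ← hQ]
    linear_combination (W' : PowerSeries (ZMod l)) * (V : PowerSeries (ZMod l)) ^ l ^ s *
      (∏ v ∈ B, (b v : PowerSeries (ZMod l)) ^ l ^ s) *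
      (∏ v ∈ B, (b v : PowerSeries (ZMod l)) ^ (l ^ s / e v)) * hid
  have hid' := Polynomial.coe_injective _ hid2
  have hp0 : p ≠ 0 := by
    intro h
    rw [h, zero_mul] at hK
    exact zero_ne_one hK
  have hU0 : U ≠ 0 := by
    intro h
    rw [h, Polynomial.coe_zero] at hU
    rcases mul_eq_zero.1 hU with h2 | h2
    · exact hp0 h2
    · exact hV ((Polynomial.coe_eq_zero_iff).1 h2)
  have hp0' : p' ≠ 0 := by
    intro h
    rw [h, zero_mul] at hL
    exact zero_ne_one hL
  have hQ0 : Q ≠ 0 := by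
    intro h
    rw [h, Polynomial.coe_zero] at hQ
    rcases mul_eq_zero.1 hQ with h2 | h2
    · exact hp0' h2
    · exact hW0 ((Polynomial.coe_eq_zero_iff).1 h2)
  have hg0 : ∀ v, g v ≠ 0 := by
    intro v h
    have h1 := hg v
    rw [h, zero_sub, dvd_neg] at h1
    have h2 := X_pow_dvd_iff.1 h1 0 (Pool.Agent.H525R3.FFp.deg_pos v)
    rw [coeff_zero_eq_constantCoeff_apply, map_one] at h2
    exact one_ne_zero h2
  have ha0 : ∀ v ∈ B, a v ≠ 0 := by
    intro v hv h
    have h1 := hab v hv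
    rw [h, Polynomial.coe_zero] at h1
    rcases mul_eq_zero.1 h1 with h2 | h2
    · exact hg0 v h2
    · exact hb0 v hv ((Polynomial.coe_eq_zero_iff).1 h2)
  have hprod : ∀ (c : Place k K → Polynomial (ZMod l)) (n : Place k K → ℕ), (∀ v ∈ B, c v ≠ 0) →
      (∏ v ∈ B, c v ^ n v) ≠ 0 := fun c n hc =>
    Finset.prod_ne_zero_iff.2 fun v hv => pow_ne_zero _ (hc v hv)
  have hrm : ∀ (c : Place k K → Polynomial (ZMod l)) (n : Place k K → ℕ), (∀ v ∈ B, c v ≠ 0) →
      (∏ v ∈ B, c v ^ n v).rootMultiplicity x = ∑ v ∈ B, n v * (c v).rootMultiplicity x := by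
    intro c n hc
    rw [rm_prod x _ _ fun v hv => pow_ne_zero _ (hc v hv)]
    exact Finset.sum_congr rfl fun v hv => rm_pow x (hc v hv) _
  have hmu := congrArg (Polynomial.rootMultiplicity x) hid'
  rw [rm_mul x (mul_ne_zero (mul_ne_zero hW0 (pow_ne_zero _ hU0)) (hprod a _ ha0))
      (hprod b _ hb0),
    rm_mul x (mul_ne_zero hW0 (pow_ne_zero _ hU0)) (hprod a _ ha0),
    rm_mul x hW0 (pow_ne_zero _ hU0), rm_pow x hU0,
    rm_mul x (mul_ne_zero (mul_ne_zero hQ0 (pow_ne_zero _ hV)) (hprod a _ ha0)) (hprod b _ hb0),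
    rm_mul x (mul_ne_zero hQ0 (pow_ne_zero _ hV)) (hprod a _ ha0),
    rm_mul x hQ0 (pow_ne_zero _ hV), rm_pow x hV, hrm a _ ha0, hrm a _ ha0, hrm b _ hb0,
    hrm b _ hb0] at hmu
  have hle : ∀ (c : Place k K → Polynomial (ZMod l)),
      ∑ v ∈ B, (l ^ s - l ^ s / e v) * (c v).rootMultiplicity x +
        ∑ v ∈ B, l ^ s / e v * (c v).rootMultiplicity x =
      ∑ v ∈ B, l ^ s * (c v).rootMultiplicity x := by
    intro c
    rw [← Finset.sum_add_distrib]
    refine Finset.sum_congr rfl fun v _ => ?_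
    rw [← add_mul, Nat.sub_add_cancel (Nat.div_le_self _ _)]
  have h1 := hle a
  have h2 := hle b
  omega

end ext

end Pool.Agent.Y701.PE
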