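import Pool.Agent.Y701.PE.Kid

/-!
The bound for the order of vanishing over Galois extensions of prime power degree, for Euler products
given by power sums.
-/

set_option autoImplicit false
set_option linter.all false
set_option maxHeartbeats 4000000

open PowerSeries FF Module

namespace Pool.Agent.Y701.PE

open Pool.Agent.W343.BSD

theorem sub_pow' {R : Type*} [CommRing R] {d : ℕ} (hd : d ≠ 0) (P : PowerSeries R) (n : ℕ) :
    sub d (P ^ n) = sub d P ^ n := by
  rw [sub_eq hd, sub_eq hd, map_pow]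

theorem sub_poly {d : ℕ} (hd : d ≠ 0) (P : Polynomial ℤ) :
    sub d (P : PowerSeries ℤ) = ((Polynomial.expand ℤ d P : Polynomial ℤ) : PowerSeries ℤ) := by
  rw [sub_eq hd, coe_expand]

/-- the multiplicity modulo `l` of the zero `x` of `P(T ^ d)` -/
noncomputable def mlt (l : ℕ) [Fact l.Prime] (x : ZMod l) (d : ℕ) (P : Polynomial ℤ) : ℕ :=
  ((Polynomial.expand ℤ d P).map (Int.castRingHom (ZMod l))).rootMultiplicity x

theorem map_ne_of_coeff {l : ℕ} [Fact l.Prime] {P : Polynomial ℤ} (h : P.coeff 0 = 1) :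
    P.map (Int.castRingHom (ZMod l)) ≠ 0 := by
  intro h0
  have h1 := congrArg (fun p => Polynomial.coeff p 0) h0
  simp only [Polynomial.coeff_map, h, Polynomial.coeff_zero, map_one] at h1
  exact one_ne_zero h1

theorem coeff_zero_expand {d : ℕ} (hd : 0 < d) (P : Polynomial ℤ) :
    (Polynomial.expand ℤ d P).coeff 0 = P.coeff 0 := by
  rw [Polynomial.coeff_expand hd, if_pos (dvd_zero _), Nat.zero_div]

section final

variable {k K k' L : Type} [Field k] [Finite k] [Field K] [Algebra k K] [FF.IsFF k K]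
  [Field k'] [Finite k'] [Field L] [Algebra k' L] [Algebra k k'] [Algebra k L] [Algebra K L]
  [IsScalarTower k K L] [IsScalarTower k k' L] [FF.IsFF k L] [FF.IsFF k' L]
  [FiniteDimensional K L] [IsGalois K L]

/-- the Euler product over the smaller field of constants -/
theorem euler_down (hr : finrank k k' ≠ 0) {P' : Place k' L → PowerSeries ℤ}
    (hP' : ∀ w, constantCoeff (P' w) = 1) :
    eulerProd (fun w : Place k L => w.deg) (fun w => sub w.deg (P' (upPlace w))) =
      expand (finrank k k') hr (eulerProd (fun w : Place k' L => w.deg)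
        (fun w => sub w.deg (P' w))) := by
  have hfin' : ∀ n, {v : Place k' L | v.deg ≤ n}.Finite := fun n => places_fin n
  have hd : ∀ w : Place k' L, w.deg ≠ 0 := fun w => (Pool.Agent.H525R3.FFp.deg_pos w).ne'
  rw [expand_eulerProd hfin' hr (fun v => sub_mod (hd v) (hP' v))]
  have h2 := eulerProd_equiv (R := ℤ) (placeEquiv (k := k) (k' := k') (F := L))
    (fun v => finrank k k' * v.deg) (fun n => (hfin' n).subset fun v hv =>
      (Nat.le_mul_of_pos_left _ (Nat.pos_of_ne_zero hr)).trans hv)
    (fun v => expand (finrank k k') hr (sub v.deg (P' v)))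
  rw [← h2]
  have e1 : (fun v : Place k L => v.deg) =
      fun v => finrank k k' * (placeEquiv (k' := k') v).deg := funext fun v =>
    deg_down (k := k) (placeEquiv (k' := k') v)
  have e2 : (fun v : Place k L => sub v.deg (P' (upPlace v))) =
      fun v => expand (finrank k k') hr
        (sub (placeEquiv (k' := k') v).deg (P' (placeEquiv (k' := k') v))) := by
    funext v
    have h3 : v.deg = finrank k k' * (placeEquiv (k' := k') v).deg :=
      deg_down (k := k) (placeEquiv (k' := k') v)
    rw [← sub_eq hr, sub_sub _ _ hr (hd _), ← h3]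
    rfl
  rw [e1, e2]

theorem kida_exp (hconst : ∀ a : K, IsAlgebraic k a → a ∈ (algebraMap k K).range)
    {l s : ℕ} [hl : Fact l.Prime] (hlk : (l : k) ≠ 0) (hn : finrank K L = l ^ s)
    {e : Place k K → ℕ} (he : ∀ (v : Place k K) (w : Place k L) (n : ℕ), Over w v n → n = e v)
    (B : Finset (Place k K)) (hB : ∀ v, v ∉ B → e v = 1)
    {P : Place k K → PowerSeries ℤ} {P' : Place k' L → PowerSeries ℤ}
    {a : Place k K → ℕ → ℤ} {a' : Place k' L → ℕ → ℤ} (hP : ∀ v, IsExp (a v) (P v))
    (hP' : ∀ w, IsExp (a' w) (P' w))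
    (haa : ∀ (v : Place k K) (w : Place k L) (n f : ℕ), Over w v n → w.deg = v.deg * f →
      ∀ m, m ≠ 0 → a' (upPlace w) m = a v (f * m))
    {Λ Λ' : PowerSeries ℤ}
    (hK : Λ * eulerProd (fun v : Place k K => v.deg) (fun v => sub v.deg (P v)) = 1)
    (hL : Λ' * eulerProd (fun w : Place k' L => w.deg) (fun w => sub w.deg (P' w)) = 1)
    {U V : Polynomial ℤ} (hV : V.coeff 0 = 1)
    (hU : Λ * (V : PowerSeries ℤ) = (U : PowerSeries ℤ))
    {A C : Place k K → Polynomial ℤ} (hC : ∀ v ∈ B, (C v).coeff 0 = 1)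
    (hAC : ∀ v ∈ B, P v * (C v : PowerSeries ℤ) = (A v : PowerSeries ℤ)) (c m : ℕ)
    (G W : Polynomial ℤ) (hW : W.coeff 0 = 1) (hG : Λ' * (W : PowerSeries ℤ) =
      (((1 - Polynomial.C ((Nat.card k' : ℤ) ^ c) * Polynomial.X) ^ m * G : Polynomial ℤ) :
        PowerSeries ℤ)) :
    finrank k k' * m + finrank K L * mlt l (((Nat.card k : ℕ) : ZMod l) ^ c)⁻¹ 1 V +
        ∑ v ∈ B, (finrank K L - finrank K L / e v) *
          mlt l (((Nat.card k : ℕ) : ZMod l) ^ c)⁻¹ v.deg (C v) ≤
      mlt l (((Nat.card k : ℕ) : ZMod l) ^ c)⁻¹ (finrank k k') W + finrank K L * mlt l (((Nat.card k : ℕ) : ZMod l) ^ c)⁻¹ 1 U +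
        ∑ v ∈ B, (finrank K L - finrank K L / e v) *
          mlt l (((Nat.card k : ℕ) : ZMod l) ^ c)⁻¹ v.deg (A v) := by
  classical
  have hD := fun v : Place k K => exists_galoisFiber (L := L) v
  choose S e' f D using hD
  have hee : ∀ v, e' v = e v := fun v => by
    obtain ⟨w, hw⟩ := (D v).nonempty
    exact he v w _ ((D v).isOver w hw)
  obtain rfl : e' = e := funext hee
  have : FiniteDimensional k k' := Module.Finite.of_finite
  have hr : finrank k k' ≠ 0 := finrank_pos.ne'
  obtain ⟨i, hi⟩ := constants_pow (L := L) hconst hn hr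
  have hq0 := card_ne_zero_mod (k := k) hlk
  set q : ZMod l := ((Nat.card k : ℕ) : ZMod l) with hq
  have hdK : ∀ v : Place k K, v.deg ≠ 0 := fun w => (Pool.Agent.H525R3.FFp.deg_pos w).ne'
  have hdL : ∀ v : Place k L, v.deg ≠ 0 := fun w => (Pool.Agent.H525R3.FFp.deg_pos w).ne'
  -- the Euler products modulo `l`
  set g : Place k K → PowerSeries (ZMod l) := fun v => redL l (sub v.deg (P v)) with hg
  set g' : Place k L → PowerSeries (ZMod l) := fun w => redL l (sub w.deg (P' (upPlace w))) with hg'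
  have hg1 : ∀ v, (X : PowerSeries (ZMod l)) ^ v.deg ∣ g v - 1 := by
    intro v
    have h := map_dvd (redL l) (sub_mod (hdK v) (hP v).1)
    rwa [map_sub, map_one, map_pow, PowerSeries.map_X] at h
  have hg1' : ∀ w, (X : PowerSeries (ZMod l)) ^ w.deg ∣ g' w - 1 := by
    intro w
    have h := map_dvd (redL l) (sub_mod (hdL w) (hP' (upPlace w)).1)
    rwa [map_sub, map_one, map_pow, PowerSeries.map_X] at h
  have hgg : ∀ v, ∀ w ∈ S v, g' w = g v ^ f v := by
    intro v w hw
    obtain ⟨j, hj⟩ := fiber_pow (D v) hn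
    have h1 := dwork (l := l) (i := j) (hP v) (hP' (upPlace w)) (by
      intro n hn0
      rw [← hj]
      exact haa v w _ (f v) ((D v).isOver w hw) ((D v).deg w hw) n hn0)
    rw [← hj] at h1
    have hf0 : f v ≠ 0 := by
      rw [hj]
      exact pow_ne_zero _ hl.out.ne_zero
    show redL l (sub w.deg (P' (upPlace w))) = redL l (sub v.deg (P v)) ^ f v
    rw [(D v).deg w hw, ← sub_sub _ _ (hdK v) hf0, map_sub', h1, sub_pow' (hdK v), map_sub']
  have hK1 : redL l Λ * eulerProd (fun v : FF.Place k K => v.deg) g = 1 := by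
    have h := congrArg (redL l) hK
    rwa [map_mul, map_one, map_eulerProd (fun n => places_fin n)] at h
  have hLk : expand (finrank k k') hr Λ' *
      eulerProd (fun w : Place k L => w.deg) (fun w => sub w.deg (P' (upPlace w))) = 1 := by
    rw [euler_down hr fun w => (hP' w).1, ← map_mul, hL, map_one]
  have hL1 : redL l (expand (finrank k k') hr Λ') *
      eulerProd (fun v : FF.Place k L => v.deg) g' = 1 := by
    have h := congrArg (redL l) hLk
    rwa [map_mul, map_one, map_eulerProd (fun n => places_fin n)] at h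
  set Q0 : Polynomial ℤ := Polynomial.expand ℤ (finrank k k')
    ((1 - Polynomial.C ((Nat.card k' : ℤ) ^ c) * Polynomial.X) ^ m * G) with hQ0
  set W0 : Polynomial ℤ := Polynomial.expand ℤ (finrank k k') W with hW0
  have hQ : redL l (expand (finrank k k') hr Λ') *
      ((W0.map (Int.castRingHom (ZMod l)) : Polynomial (ZMod l)) : PowerSeries (ZMod l)) =
      ((Q0.map (Int.castRingHom (ZMod l)) : Polynomial (ZMod l)) : PowerSeries (ZMod l)) := by
    rw [← redL_poly, ← redL_poly, ← map_mul, hW0, hQ0, coe_expand _ hr, coe_expand _ hr,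
      ← map_mul, hG]
  have hWne : W0.map (Int.castRingHom (ZMod l)) ≠ 0 := map_ne_of_coeff (by
    rw [hW0, coeff_zero_expand (Nat.pos_of_ne_zero hr), hW])
  have hbound := kida_mult (a := fun v => (Polynomial.expand ℤ v.deg (A v)).map
      (Int.castRingHom (ZMod l)))
    (b := fun v => (Polynomial.expand ℤ v.deg (C v)).map (Int.castRingHom (ZMod l)))
    (U := U.map (Int.castRingHom (ZMod l))) (V := V.map (Int.castRingHom (ZMod l)))
    hn D B hB hg1 hg1' hgg hK1 hL1 (map_ne_of_coeff hV) (by
      have h := congrArg (redL l) hU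
      rwa [map_mul, redL_poly, redL_poly] at h) hWne hQ
    (fun v hv => map_ne_of_coeff (by
      rw [coeff_zero_expand (Nat.pos_of_ne_zero (hdK v)), hC v hv]))
    (fun v hv => by
      rw [← redL_poly, ← redL_poly, ← sub_poly (hdK v), ← sub_poly (hdK v), hg]
      simp only
      rw [← map_mul, ← sub_mul (hdK v), hAC v hv]) (q ^ c)⁻¹
  have hQne : Q0.map (Int.castRingHom (ZMod l)) ≠ 0 := by
    intro h
    rw [h, Polynomial.coe_zero] at hQ
    rcases mul_eq_zero.1 hQ with h2 | h2
    · rw [h2, zero_mul] at hL1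
      exact zero_ne_one hL1
    · exact hWne ((Polynomial.coe_eq_zero_iff).1 h2)
  have hcard : ((Nat.card k' : ℕ) : ZMod l) = q ^ finrank k k' := by
    rw [Module.natCard_eq_pow_finrank (K := k) (V := k'), hq]
    push_cast
    rfl
  have hQeq : Q0.map (Int.castRingHom (ZMod l)) =
      (1 - Polynomial.C (q ^ c) * Polynomial.X) ^ (finrank k k' * m) *
        (Polynomial.expand (ZMod l) (finrank k k') (G.map (Int.castRingHom (ZMod l)))) := by
    rw [hQ0, map_mul, map_pow, map_sub, map_one, map_mul, Polynomial.expand_C, Polynomial.expand_X,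
      Polynomial.map_mul, Polynomial.map_pow, Polynomial.map_sub, Polynomial.map_one,
      Polynomial.map_mul, Polynomial.map_C, Polynomial.map_pow, Polynomial.map_X,
      Polynomial.map_expand]
    have h1 : (Int.castRingHom (ZMod l)) ((Nat.card k' : ℤ) ^ c) = (q ^ c) ^ finrank k k' := by
      rw [map_pow, eq_intCast, Int.cast_natCast, hcard, ← pow_mul, ← pow_mul, mul_comm]
    rw [h1, pow_mul, hi, sub_pow_expChar_pow, one_pow, mul_pow, Polynomial.C_pow]
  rw [hQeq] at hbound hQne
  have hlin : (1 - Polynomial.C (q ^ c) * Polynomial.X : Polynomial (ZMod l)) ≠ 0 := by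
    intro h
    have h1 := congrArg (Polynomial.eval 0) h
    simp at h1
  rw [rm_mul _ (left_ne_zero_of_mul hQne) (right_ne_zero_of_mul hQne), rm_pow _ hlin,
    rm_linear (pow_ne_zero c hq0), mul_one] at hbound
  have e1 : ∀ W : Polynomial ℤ, mlt l (q ^ c)⁻¹ 1 W =
      (W.map (Int.castRingHom (ZMod l))).rootMultiplicity (q ^ c)⁻¹ := by
    intro W
    rw [mlt, Polynomial.expand_one]
  rw [hn, e1, e1]
  unfold mlt
  rw [← hW0]
  omega

end final

end Pool.Agent.Y701.PE
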