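import Pool.Agent.Y701.PE.Rat
import Pool.Agent.Y701.PE.Kid2

/-!
The order of vanishing for pencils over Galois extensions of prime power degree.
-/

set_option autoImplicit false
set_option linter.all false
set_option maxHeartbeats 4000000

open FF Module Pool.Agent.W343.BSD
open scoped LinearAlgebra.Projectivization

namespace Pool.Agent.Y701.PE

open Pool.Agent.Y701.QF

section unique

variable {k K : Type} [Field k] [Finite k] [Field K] [Algebra k K] [FF.IsFF k K] {n : ℕ}

theorem exists_extension (κ : Type) [Field κ] [Finite κ] {m : ℕ} (hm : m ≠ 0) :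
    ∃ (E : Type) (_ : Field E) (_ : Finite E) (j : κ →+* E), Nat.card E = Nat.card κ ^ m := by
  obtain ⟨p, hp⟩ := CharP.exists κ
  have : Fact p.Prime := ⟨CharP.char_is_prime κ p⟩
  haveI : NeZero m := ⟨hm⟩
  refine ⟨FiniteField.Extension κ p m, inferInstance, inferInstance,
    algebraMap κ (FiniteField.Extension κ p m), ?_⟩
  rw [Module.natCard_eq_pow_finrank (K := κ) (V := FiniteField.Extension κ p m),
    FiniteField.finrank_extension κ p m]

theorem exp_unique {a a' : ℕ → ℤ} (h : ∀ m, m ≠ 0 → a m = a' m) {P P' : PowerSeries ℤ}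
    (hP : IsExp a P) (hP' : IsExp a' P') : P = P' := by
  apply toC_inj
  apply eq_of_pw (cc_toC hP.1) (cc_toC hP'.1)
  intro m hm
  rw [pw_of hP hm, pw_of hP' hm, h m hm]

theorem trace_unique (c : ℕ → ℤ) (w : Place k K) (t : K) {I : Set (MvPolynomial (Fin (n + 1)) k)}
    {F G : MvPolynomial (Fin (n + 1)) k} {a a' : ℕ → ℤ} (ha : IsTrace c w t I F G a)
    (ha' : IsTrace c w t I F G a') : ∀ m, m ≠ 0 → a m = a' m := by
  intro m hm
  have hfin : Finite (S.Res w) := by
    have h1 : Finite w.RF := Module.finite_of_finite k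
    exact h1
  obtain ⟨E, iE, fE, j, hj⟩ := exists_extension (S.Res w) hm
  rw [ha m E j (Nat.pos_of_ne_zero hm) hj, ha' m E j (Nat.pos_of_ne_zero hm) hj]

theorem numerator_unique (c : ℕ → ℤ) (w : Place k K) (t : K)
    {I : Set (MvPolynomial (Fin (n + 1)) k)} {F G : MvPolynomial (Fin (n + 1)) k}
    {P P' : PowerSeries ℤ} (hP : IsNumerator c w t I F G P) (hP' : IsNumerator c w t I F G P') :
    P = P' := by
  obtain ⟨a, ha, h⟩ := hP
  obtain ⟨a', ha', h'⟩ := hP'
  exact exp_unique (trace_unique c w t ha ha') h h'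

theorem lfun_unique (c : ℕ → ℤ) (t : K) {I : Set (MvPolynomial (Fin (n + 1)) k)}
    {F G : MvPolynomial (Fin (n + 1)) k} {Λ Λ' : PowerSeries ℤ}
    (h : IsLFunction k c t I F G Λ) (h' : IsLFunction k c t I F G Λ') : Λ = Λ' := by
  obtain ⟨P, hP, e⟩ := h
  obtain ⟨P', hP', e'⟩ := h'
  obtain rfl : P = P' := funext fun w => numerator_unique c w t (hP w) (hP' w)
  exact left_inv_eq_right_inv e (by rw [mul_comm]; exact e')

end unique

section final

variable {k K k' L : Type} [Field k] [Finite k] [Field K] [Algebra k K] [FF.IsFF k K]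
  [Field k'] [Finite k'] [Field L] [Algebra k' L] [Algebra k k'] [Algebra k L] [Algebra K L]
  [IsScalarTower k K L] [IsScalarTower k k' L] [FF.IsFF k L] [FF.IsFF k' L]
  [FiniteDimensional K L] [IsGalois K L] {n : ℕ}

theorem pencil_bound (hconst : ∀ a : K, IsAlgebraic k a → a ∈ (algebraMap k K).range)
    {l s : ℕ} [hl : Fact l.Prime] (hlk : (l : k) ≠ 0) (hn : finrank K L = l ^ s)
    {e : Place k K → ℕ} (he : ∀ (v : Place k K) (w : Place k L) (n : ℕ), Over w v n → n = e v)
    (B : Finset (Place k K)) (hB : ∀ v, v ∉ B → e v = 1) (c : ℕ → ℤ) (t : K)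
    {I : Set (MvPolynomial (Fin (n + 1)) k)} {F G : MvPolynomial (Fin (n + 1)) k}
    {Λ Λ' : PowerSeries ℤ} (hK : IsLFunction k c t I F G Λ)
    (hL : IsLFunction k' c (algebraMap K L t) (MvPolynomial.map (algebraMap k k') '' I)
      (MvPolynomial.map (algebraMap k k') F) (MvPolynomial.map (algebraMap k k') G) Λ')
    {U V : Polynomial ℤ} (hV : V.coeff 0 = 1)
    (hU : Λ * (V : PowerSeries ℤ) = (U : PowerSeries ℤ))
    {A C : Place k K → Polynomial ℤ} (hC : ∀ v ∈ B, (C v).coeff 0 = 1)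
    {P : Place k K → PowerSeries ℤ} (hP : ∀ v ∈ B, IsNumerator c v t I F G (P v))
    (hAC : ∀ v ∈ B, P v * (C v : PowerSeries ℤ) = (A v : PowerSeries ℤ)) (b m : ℕ)
    (H W : Polynomial ℤ) (hW : W.coeff 0 = 1) (hH : Λ' * (W : PowerSeries ℤ) =
      (((1 - Polynomial.C ((Nat.card k' : ℤ) ^ b) * Polynomial.X) ^ m * H : Polynomial ℤ) :
        PowerSeries ℤ)) :
    finrank k k' * m + finrank K L * mlt l (((Nat.card k : ℕ) : ZMod l) ^ b)⁻¹ 1 V +
        ∑ v ∈ B, (finrank K L - finrank K L / e v) *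
          mlt l (((Nat.card k : ℕ) : ZMod l) ^ b)⁻¹ v.deg (C v) ≤
      mlt l (((Nat.card k : ℕ) : ZMod l) ^ b)⁻¹ (finrank k k') W + finrank K L * mlt l (((Nat.card k : ℕ) : ZMod l) ^ b)⁻¹ 1 U +
        ∑ v ∈ B, (finrank K L - finrank K L / e v) *
          mlt l (((Nat.card k : ℕ) : ZMod l) ^ b)⁻¹ v.deg (A v) := by
  obtain ⟨Q, hQ, hKe⟩ := hK
  obtain ⟨Q', hQ', hLe⟩ := hL
  choose a ha hae using hQ
  choose a' ha' hae' using hQ'
  simp only [S.deg_eq] at hKe hLe
  refine kida_exp hconst hlk hn he B hB hae hae' ?_ hKe hLe hV hU hC ?_ b m H W hW hH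
  · intro v w n' f h hd m' hm'
    exact trace_over c t h hd (ha v) (ha' (upPlace w)) hm'
  · intro v hv
    rw [← hAC v hv, numerator_unique c v t ⟨a v, ha v, hae v⟩ (hP v hv)]

end final

section rat

variable {k : Type} [Field k] [Finite k] {n : ℕ}

/-- The number of the points over the extension of degree `m` is `a m`. -/
def IsCount (I : Set (MvPolynomial (Fin (n + 1)) k)) (a : ℕ → ℤ) : Prop :=
  ∀ (m : ℕ) (E : Type) [Field E] [Finite E] (ι : k →+* E), 0 < m →
    Nat.card E = Nat.card k ^ m → a m = Nat.card (Pts E ι I)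

/-- the power sums over the rational function field -/
theorem pw_rat (c : ℕ → ℤ) {I : Set (MvPolynomial (Fin (n + 1)) k)}
    {F G : MvPolynomial (Fin (n + 1)) k} {Λ : PowerSeries ℤ}
    (hΛ : IsLFunction k c (RatFunc.X : RatFunc k) I F G Λ) {y z : ℕ → ℤ} (hy : IsCount I y)
    (hz : IsCount (I ∪ {F, G}) z) {m : ℕ} (hm : m ≠ 0) :
    PowerSeries.coeff m (pw (toC Λ)) = ((((Nat.card k : ℤ) ^ m + 1) * c (Nat.card k ^ m) -
      (y m + (Nat.card k : ℤ) ^ m * z m) : ℤ) : ℂ) := by
  obtain ⟨P, hP, e⟩ := hΛ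
  choose a ha hae using hP
  simp only [S.deg_eq] at e
  obtain ⟨E, iE, fE, ι, hE⟩ := exists_extension k hm
  letI : Algebra k E := ι.toAlgebra
  letI : Fintype E := Fintype.ofFinite E
  have hfd : FiniteDimensional k E := Module.Finite.of_finite
  have hr : finrank k E = m := by
    have h1 : Nat.card E = Nat.card k ^ finrank k E :=
      Module.natCard_eq_pow_finrank (K := k) (V := E)
    rw [hE] at h1
    exact (Nat.pow_right_injective (Finite.one_lt_card (α := k)) h1).symm
  rw [pw_euler hae e hm]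
  have h1 := sum_places (E := E) c I F G ha
  rw [hr] at h1
  rw [h1, hy m E ι (Nat.pos_of_ne_zero hm) hE, hz m E ι (Nat.pos_of_ne_zero hm) hE,
    ← Nat.card_eq_fintype_card, hE]
  push_cast
  rfl

end rat

end Pool.Agent.Y701.PE
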