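import Pool.Agent.Y701.PE.Main
import Pool.Agent.Y701.QG.Mult

/-!
Pencils over `k(t)`: the exact product and the final bounds.
-/

set_option autoImplicit false
set_option linter.all false
set_option maxHeartbeats 4000000

open FF Module Pool.Agent.W343.BSD
open scoped LinearAlgebra.Projectivization

namespace Pool.Agent.Y701.PE

open Pool.Agent.Y701.QF

section lies

/-- `w` lies over `v` with ramification index `e` -/
def LiesOver {k K k' L : Type} [Field k] [Field K] [Algebra k K] [Field k'] [Field L]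
    [Algebra k' L] [Algebra K L] (w : Place k' L) (v : Place k K) (e : ℕ) : Prop :=
  0 < e ∧ ∀ f : K, w.ord (algebraMap K L f) = e * v.ord f

end lies

section order

open Polynomial

/-- `Λ W = P` for an integral polynomial `P` with a zero of order `r` at `1 / Q`. -/
def HasOrder (Q : ℕ) (Λ : PowerSeries ℤ) (W : ℤ[X]) (r : ℕ) : Prop :=
  ∃ P : ℤ[X], Λ * (W : PowerSeries ℤ) = (P : PowerSeries ℤ) ∧
    (P.map (Int.castRingHom ℚ)).rootMultiplicity ((Q : ℚ)⁻¹) = r

end order

section fin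

variable {k K k' L : Type} [Field k] [Finite k] [Field K] [Algebra k K]
  [Field k'] [Finite k'] [Field L] [Algebra k' L] [Algebra k k'] [Algebra k L] [Algebra K L]
  [IsScalarTower k K L] [IsScalarTower k k' L] {n : ℕ}

theorem pencil_order (hKc : IsCurveField k K) (hLc : IsCurveField k' L)
    {l : ℕ} [hl : Fact l.Prime] (hlk : (l : k) ≠ 0) (hgal : IsGalois K L)
    (hpow : ∃ s : ℕ, finrank K L = l ^ s)
    {e : Place k K → ℕ} (he : ∀ (v : Place k K) (w : Place k' L) (n : ℕ), LiesOver w v n → n = e v)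
    (B : Finset (Place k K)) (hB : ∀ v, v ∉ B → e v = 1) (c : ℕ → ℤ) (t : K)
    {I : Set (MvPolynomial (Fin (n + 1)) k)} {F G : MvPolynomial (Fin (n + 1)) k}
    {Λ Λ' : PowerSeries ℤ} (hK : IsLFunction k c t I F G Λ)
    (hL : IsLFunction k' c (algebraMap K L t) (MvPolynomial.map (algebraMap k k') '' I)
      (MvPolynomial.map (algebraMap k k') F) (MvPolynomial.map (algebraMap k k') G) Λ')
    {U V : Polynomial ℤ} (hV : V.coeff 0 = 1)
    (hU : Λ * (V : PowerSeries ℤ) = (U : PowerSeries ℤ))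
    {P : Place k K → PowerSeries ℤ} {A C : Place k K → Polynomial ℤ}
    (hP : ∀ v ∈ B, IsNumerator c v t I F G (P v) ∧
      P v * (C v : PowerSeries ℤ) = (A v : PowerSeries ℤ) ∧ (C v).coeff 0 = 1) (b r : ℕ)
    (W : Polynomial ℤ) (hW : W.coeff 0 = 1) (hr : HasOrder (Nat.card k' ^ b) Λ' W r) :
    finrank k k' * r + finrank K L * mlt l (((Nat.card k : ℕ) : ZMod l) ^ b)⁻¹ 1 V +
        ∑ v ∈ B, (finrank K L - finrank K L / e v) *
          mlt l (((Nat.card k : ℕ) : ZMod l) ^ b)⁻¹ (S.deg v) (C v) ≤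
      mlt l (((Nat.card k : ℕ) : ZMod l) ^ b)⁻¹ (finrank k k') W +
        finrank K L * mlt l (((Nat.card k : ℕ) : ZMod l) ^ b)⁻¹ 1 U +
        ∑ v ∈ B, (finrank K L - finrank K L / e v) *
          mlt l (((Nat.card k : ℕ) : ZMod l) ^ b)⁻¹ (S.deg v) (A v) := by
  obtain ⟨s, hs⟩ := hpow
  have i0 : FF.IsFF k K := ⟨hKc.essFiniteType, hKc.trdeg_eq_one⟩
  have i1 : FiniteDimensional K L := Module.finite_of_finrank_pos (by
    rw [hs]; exact pow_pos hl.out.pos s)
  have i2 : FF.IsFF k L := isFF_of_finite (K := K)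
  have i3 : FF.IsFF k' L := ⟨hLc.essFiniteType, hLc.trdeg_eq_one⟩
  have i4 := hgal
  obtain ⟨Q, hQ, hQr⟩ := hr
  have hq : Nat.card k' ^ b ≠ 0 := pow_ne_zero _ Nat.card_pos.ne'
  obtain ⟨H, hH⟩ := Pool.Agent.TH943.KD.dvd_of_mult hq hQr
  rw [hH] at hQ
  push_cast at hQ
  simp only [S.deg_eq]
  exact pencil_bound hKc.algClosed hlk hs (fun v w n hov => he v (upPlace (k' := k') w) n
    ⟨hov.1, hov.2⟩) B hB c t hK hL hV hU (fun v hv => (hP v hv).2.2) (fun v hv => (hP v hv).1)
    (fun v hv => (hP v hv).2.1) b r H W hW (by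
      rw [hQ]
      push_cast
      rfl)

end fin

section plane

open Polynomial

variable {k : Type} [Field k] [Finite k]

theorem map_linC (c : ℤ) (d : ℕ) : toC ((1 - C c * X ^ d : ℤ[X]) : PowerSeries ℤ) =
    1 - PowerSeries.C ((c : ℤ) : ℂ) * PowerSeries.X ^ d := by
  unfold toC
  rw [Pool.Agent.Y701.QG.map_lin]
  rfl

theorem card_proj (E : Type) [Field E] [Finite E] (m : ℕ) :
    Nat.card (ℙ E (Fin (m + 1) → E)) = ∑ i ∈ Finset.range (m + 1), Nat.card E ^ i :=
  Projectivization.card_of_finrank E (Fin (m + 1) → E) (by simp)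

theorem count_empty (m : ℕ) : IsCount (k := k) (n := m) ∅
    (fun r => ∑ i ∈ Finset.range (m + 1), ((Nat.card k : ℤ) ^ r) ^ i) := by
  intro r E _ _ ι hr hE
  have h1 : Nat.card (Pts E ι (∅ : Set (MvPolynomial (Fin (m + 1)) k))) =
      Nat.card (ℙ E (Fin (m + 1) → E)) := by
    refine Nat.card_congr ((Equiv.Set.univ _).symm.trans (Equiv.setCongr ?_)).symm
    ext y
    simp [Pts]
  rw [h1, card_proj, hE]
  push_cast
  rfl

/-- the product over the places for a pencil of plane curves -/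
theorem plane_exact {F G : MvPolynomial (Fin 3) k} {Λ : PowerSeries ℤ}
    (hΛ : IsLFunction k (fun Q => 1 + (Q : ℤ)) (RatFunc.X : RatFunc k) ∅ F G Λ)
    (D : Multiset ℕ) (hD0 : 0 ∉ D)
    (hD : IsCount (k := k) {F, G} fun m => ((D.filter (· ∣ m)).sum : ℕ)) :
    Λ * ((1 - C (Nat.card k : ℤ) * X : ℤ[X]) : PowerSeries ℤ) =
      (((D.map fun d => (1 - C ((Nat.card k : ℤ) ^ d) * X ^ d : ℤ[X])).prod : ℤ[X]) :
        PowerSeries ℤ) := by
  classical
  have hD' : IsCount (k := k) ((∅ : Set (MvPolynomial (Fin 3) k)) ∪ {F, G})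
      fun m => ((D.filter (· ∣ m)).sum : ℕ) := by
    rw [Set.empty_union]
    exact hD
  set q : ℤ := (Nat.card k : ℤ) with hq
  have hprod : ∀ D : Multiset ℕ, 0 ∉ D →
      PowerSeries.constantCoeff (toC (((D.map fun d =>
        (1 - C (q ^ d) * X ^ d : ℤ[X])).prod : ℤ[X]) : PowerSeries ℤ)) = 1 ∧
      ∀ m, m ≠ 0 → PowerSeries.coeff m (pw (toC (((D.map fun d =>
        (1 - C (q ^ d) * X ^ d : ℤ[X])).prod : ℤ[X]) : PowerSeries ℤ))) =
        -(((q ^ m * ((D.filter (· ∣ m)).sum : ℕ) : ℤ)) : ℂ) := by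
    intro D
    induction D using Multiset.induction_on with
    | empty =>
      intro _
      refine ⟨by simp [toC], fun m hm => ?_⟩
      simp [toC, pw_one]
    | cons d D ih =>
      intro h0
      rw [Multiset.mem_cons, not_or] at h0
      obtain ⟨ih1, ih2⟩ := ih h0.2
      have hd : d ≠ 0 := fun h => h0.1 h.symm
      rw [Multiset.map_cons, Multiset.prod_cons, Polynomial.coe_mul, map_mul, map_linC]
      have c1 : PowerSeries.constantCoeff (1 - PowerSeries.C (((q ^ d : ℤ)) : ℂ) *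
          PowerSeries.X ^ d : PowerSeries ℂ) = 1 := Pool.Agent.Y701.QG.cc_lin _ hd
      refine ⟨by rw [map_mul, c1, ih1, one_mul], fun m hm => ?_⟩
      rw [pw_mul (by rw [c1]; exact one_ne_zero) (by rw [ih1]; exact one_ne_zero), map_add,
        ih2 m hm, coeff_pw_lin hd _ hm]
      by_cases hdm : d ∣ m
      · rw [if_pos hdm, Multiset.filter_cons_of_pos (p := (· ∣ m)) _ hdm, Multiset.sum_cons]
        obtain ⟨j, rfl⟩ := hdm
        rw [Nat.mul_div_cancel_left _ (Nat.pos_of_ne_zero hd)]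
        push_cast
        rw [pow_mul]
        ring
      · rw [if_neg hdm, Multiset.filter_cons_of_neg (p := (· ∣ m)) _ hdm, zero_add]
  obtain ⟨p1, p2⟩ := hprod D hD0
  have c1 : PowerSeries.constantCoeff (1 - PowerSeries.C ((q : ℤ) : ℂ) *
      PowerSeries.X ^ 1 : PowerSeries ℂ) = 1 := Pool.Agent.Y701.QG.cc_lin _ one_ne_zero
  have cΛ : PowerSeries.constantCoeff Λ = 1 := by
    obtain ⟨P, hP, e⟩ := hΛ
    have h1 := congrArg PowerSeries.constantCoeff e
    rw [map_mul, map_one] at h1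
    have h2 : PowerSeries.constantCoeff (eulerProd (fun w : Place k (RatFunc k) => S.deg w)
        (fun w => sub (S.deg w) (P w))) = 1 := by
      simp only [S.deg_eq]
      rw [← PowerSeries.coeff_zero_eq_constantCoeff_apply,
        coeff_eulerProd (fun n => places_fin n), PowerSeries.coeff_zero_eq_constantCoeff_apply,
        map_prod]
      refine Finset.prod_eq_one fun v _ => ?_
      obtain ⟨a, -, ha⟩ := hP v
      rw [cc_sub, ha.1]
    rw [h2, mul_one] at h1
    exact h1
  have cΛ' := cc_toC cΛ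
  apply toC_inj
  rw [map_mul]
  have e1 : toC ((1 - C q * X : ℤ[X]) : PowerSeries ℤ) =
      1 - PowerSeries.C ((q : ℤ) : ℂ) * PowerSeries.X ^ 1 := by
    rw [← map_linC, pow_one]
  rw [e1]
  apply eq_of_pw
  · rw [map_mul, cΛ', c1, one_mul]
  · exact p1
  · intro m hm
    rw [pw_mul (by rw [cΛ']; exact one_ne_zero) (by rw [c1]; exact one_ne_zero), map_add,
      pw_rat _ hΛ (count_empty 2) hD' hm, coeff_pw_lin one_ne_zero _ hm, if_pos (one_dvd m),
      Nat.div_one, p2 m hm, Finset.sum_range_succ, Finset.sum_range_succ, Finset.sum_range_succ,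
      Finset.sum_range_zero, hq]
    push_cast
    ring

theorem mlt_prod {l : ℕ} [hl : Fact l.Prime] (hlk : (l : k) ≠ 0) (D : Multiset ℕ) (hD0 : 0 ∉ D) :
    mlt l (((Nat.card k : ℕ) : ZMod l) ^ 1)⁻¹ 1
      (D.map fun d => (1 - C ((Nat.card k : ℤ) ^ d) * X ^ d : ℤ[X])).prod =
      (D.map fun d => l ^ padicValNat l d).sum := by
  classical
  have hq0 := card_ne_zero_mod (k := k) hlk
  set q : ZMod l := ((Nat.card k : ℕ) : ZMod l) with hq
  unfold mlt
  rw [Polynomial.expand_one, pow_one]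
  have hmap : ∀ d : ℕ, ((1 - C ((Nat.card k : ℤ) ^ d) * X ^ d : ℤ[X]).map
      (Int.castRingHom (ZMod l))) = 1 - C (q ^ d) * X ^ d := by
    intro d
    rw [Polynomial.map_sub, Polynomial.map_one, Polynomial.map_mul, Polynomial.map_pow,
      Polynomial.map_X, Polynomial.map_C]
    simp [hq]
  have key : ∀ D : Multiset ℕ, 0 ∉ D →
      ((D.map fun d => (1 - C ((Nat.card k : ℤ) ^ d) * X ^ d : ℤ[X])).prod.map
        (Int.castRingHom (ZMod l))) ≠ 0 ∧
      ((D.map fun d => (1 - C ((Nat.card k : ℤ) ^ d) * X ^ d : ℤ[X])).prod.map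
        (Int.castRingHom (ZMod l))).rootMultiplicity q⁻¹ =
      (D.map fun d => l ^ padicValNat l d).sum := by
    intro D
    induction D using Multiset.induction_on with
    | empty =>
      intro _
      refine ⟨by simp, ?_⟩
      simp [rm_one]
    | cons d D ih =>
      intro h0
      rw [Multiset.mem_cons, not_or] at h0
      obtain ⟨ih1, ih2⟩ := ih h0.2
      have hd : d ≠ 0 := fun h => h0.1 h.symm
      rw [Multiset.map_cons, Multiset.prod_cons, Polynomial.map_mul, hmap, Multiset.map_cons,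
        Multiset.sum_cons]
      have hne : (1 - C (q ^ d) * X ^ d : (ZMod l)[X]) ≠ 0 := by
        intro h
        have h1 := congrArg (Polynomial.eval 0) h
        simp [hd] at h1
      refine ⟨mul_ne_zero hne ih1, ?_⟩
      rw [rm_mul _ hne ih1, ih2, Pool.Agent.Y701.QG.rm_one_sub hq0 hd]
  exact (key D hD0).2

theorem mlt_lin {l : ℕ} [hl : Fact l.Prime] (hlk : (l : k) ≠ 0) :
    mlt l (((Nat.card k : ℕ) : ZMod l) ^ 1)⁻¹ 1 (1 - C (Nat.card k : ℤ) * X : ℤ[X]) = 1 := by
  have h := mlt_prod (k := k) hlk {1} (by simp)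
  simp only [Multiset.map_singleton, Multiset.prod_singleton, Multiset.sum_singleton, pow_one]
    at h ⊢
  rw [h, padicValNat.one, pow_zero]

end plane

end Pool.Agent.Y701.PE
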