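import Pool.Agent.Y701.PE.Sums

/-!
The places of the rational function field and the elements of a finite extension of the constants.
-/

set_option autoImplicit false
set_option linter.all false
set_option maxHeartbeats 4000000

open FF Module Pool.Agent.W343.BSD Polynomial
open scoped LinearAlgebra.Projectivization

namespace Pool.Agent.Y701.PE

open Pool.Agent.Y701.QF Pool.Agent.W309.RF Pool.Agent.Y701.QG
open Pool.Agent.H525R3.FFp hiding phi

variable {k : Type} [Field k] [Finite k]

theorem exists_plc {π : k[X]} (hm : π.Monic) (hirr : Irreducible π) :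
    ∃ v : Place k (RatFunc k), v ≠ infty k ∧ v.deg = π.natDegree ∧ 0 < v.ord (A π) := by
  classical
  have hne : π ≠ 0 := hirr.ne_zero
  have hinf := ord_inf_A (k := k) hne
  have hpos := hirr.natDegree_pos
  have hfin : ∀ w : Place k (RatFunc k), 0 < w.ord (A π) → w ≠ infty k := by
    rintro w hw rfl
    rw [hinf] at hw
    omega
  obtain ⟨v, hv⟩ : ∃ v : Place k (RatFunc k), 0 < v.ord (A π) := by
    by_contra hcon
    push Not at hcon
    have h0 : ddeg (divisor k (A π)) = 0 := ddeg_divisor _
    have hle : divisor k (A π) ≤ Finsupp.single (infty k) (-(π.natDegree : ℤ)) := by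
      intro w
      rw [divisor_apply, Finsupp.single_apply]
      split_ifs with h
      · subst h; rw [hinf]
      · exact hcon w
    have h2 := ddeg_mono hle
    rw [ddeg_single, h0, inf_deg infty_X] at h2
    omega
  refine ⟨v, hfin v hv, ?_, hv⟩
  obtain ⟨π', hm', hirr', hord, hnn, hdvd, hdeg⟩ := fin_exists (fin_of_ne (hfin v hv))
  have hass : Associated π' π := hirr'.associated_of_dvd hirr ((hdvd _ hne).1 hv)
  rw [hdeg, natDegree_eq_of_degree_eq (degree_eq_degree_of_associated hass)]

section ext

variable {E : Type} [Field E] [Finite E] [Algebra k E]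

theorem minp (x : E) : (minpoly k x).Monic ∧ Irreducible (minpoly k x) := by
  have hfd : FiniteDimensional k E := Module.Finite.of_finite
  have hint : IsIntegral k x := Algebra.IsIntegral.isIntegral x
  exact ⟨minpoly.monic hint, minpoly.irreducible hint⟩

/-- the place of `k(t)` given by an element of `E` -/
noncomputable def plc (x : E) : Place k (RatFunc k) :=
  (exists_plc (minp (k := k) x).1 (minp (k := k) x).2).choose

theorem plc_ne (x : E) : plc (k := k) x ≠ infty k :=
  (exists_plc (minp (k := k) x).1 (minp (k := k) x).2).choose_spec.1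

theorem plc_deg (x : E) : (plc (k := k) x).deg = (minpoly k x).natDegree :=
  (exists_plc (minp (k := k) x).1 (minp (k := k) x).2).choose_spec.2.1

theorem plc_ord (x : E) : 0 < (plc (k := k) x).ord (A (minpoly k x)) :=
  (exists_plc (minp (k := k) x).1 (minp (k := k) x).2).choose_spec.2.2

theorem plc_fin (x : E) : 0 ≤ (plc (k := k) x).ord RatFunc.X := fin_of_ne (plc_ne x)

/-- the embedding of the residue field -/
theorem exists_emb (x : E) : ∃ j : S.Res (plc (k := k) x) →+* E,
    j.comp (cst (plc (k := k) x)) = algebraMap k E ∧
      j (S.red (plc (k := k) x) RatFunc.X) = x := by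
  set v := plc (k := k) x with hv
  obtain ⟨hm, hirr⟩ := minp (k := k) x
  set π := minpoly k x with hπ
  haveI : Fact (Irreducible π) := ⟨hirr⟩
  have hreg : v.Reg (RatFunc.X : RatFunc k) := Or.inr (plc_fin x)
  have h0 : π.eval₂ (algebraMap k v.RF) (v.red RatFunc.X) = 0 := by
    have h1 : phi (plc_fin x) π = 0 := by
      rw [phi_eq (plc_fin x), v.red_eq_zero_iff (fin_reg (plc_fin x) π)]
      exact Or.inr (plc_ord x)
    exact h1
  let φ : AdjoinRoot π →+* v.RF := AdjoinRoot.lift (algebraMap k v.RF) (v.red RatFunc.X) h0
  have hfd : FiniteDimensional k (AdjoinRoot π) := (AdjoinRoot.powerBasis hirr.ne_zero).finite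
  have hfin : Finite (AdjoinRoot π) := Module.finite_of_finite k
  have hfinv : Finite v.RF := Module.finite_of_finite k
  have hc1 : Nat.card (AdjoinRoot π) = Nat.card k ^ π.natDegree := by
    rw [Module.natCard_eq_pow_finrank (K := k) (V := AdjoinRoot π),
      (AdjoinRoot.powerBasis hirr.ne_zero).finrank, AdjoinRoot.powerBasis_dim]
  have hc2 : Nat.card v.RF = Nat.card k ^ π.natDegree := by
    have h1 := card_res v
    rw [plc_deg] at h1
    exact h1
  have hbij : Function.Bijective φ := by
    letI := Fintype.ofFinite (AdjoinRoot π)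
    letI := Fintype.ofFinite v.RF
    rw [Fintype.bijective_iff_injective_and_card]
    refine ⟨φ.injective, ?_⟩
    rw [← Nat.card_eq_fintype_card, ← Nat.card_eq_fintype_card, hc1, hc2]
  let e : AdjoinRoot π ≃+* v.RF := RingEquiv.ofBijective φ hbij
  let ψ : AdjoinRoot π →+* E := AdjoinRoot.lift (algebraMap k E) x (minpoly.aeval k x)
  refine ⟨ψ.comp e.symm.toRingHom, ?_, ?_⟩
  · ext c
    show ψ (e.symm (cst v c)) = algebraMap k E c
    have h1 : e (AdjoinRoot.of π c) = cst v c := by
      rw [cst_apply]
      show φ (AdjoinRoot.of π c) = _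
      rw [AdjoinRoot.lift_of]
      rfl
    rw [← h1, RingEquiv.symm_apply_apply]
    exact AdjoinRoot.lift_of _
  · show ψ (e.symm (v.red RatFunc.X)) = x
    have h1 : e (AdjoinRoot.root π) = v.red RatFunc.X := AdjoinRoot.lift_root h0
    rw [← h1, RingEquiv.symm_apply_apply]
    exact AdjoinRoot.lift_root (minpoly.aeval k x)

theorem minp_dvd (x : E) : (minpoly k x).natDegree ∣ finrank k E := by
  have hfd : FiniteDimensional k E := Module.Finite.of_finite
  rw [← IntermediateField.adjoin.finrank (Algebra.IsIntegral.isIntegral x)]
  exact ⟨_, (Module.finrank_mul_finrank k (IntermediateField.adjoin k {x}) E).symm⟩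

open Classical in
/-- the elements of `E` over a place -/
theorem card_plc [Fintype E] {v : Place k (RatFunc k)} (hv : v ≠ infty k) :
    (Finset.univ.filter fun x : E => plc (k := k) x = v).card =
      if v.deg ∣ finrank k E then v.deg else 0 := by
  obtain ⟨π, hm, hirr, hord, hnn, hdvd, hdeg⟩ := fin_exists (fin_of_ne hv)
  have h1 : (Finset.univ.filter fun x : E => plc (k := k) x = v) =
      Finset.univ.filter fun x : E => minpoly k x = π := by
    ext x
    rw [Finset.mem_filter, Finset.mem_filter]
    refine and_congr_right fun _ => ⟨fun h => ?_, fun h => ?_⟩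
    · have h2 := plc_ord (k := k) x
      rw [h] at h2
      have h3 := (hdvd _ (minp (k := k) x).2.ne_zero).1 h2
      exact (eq_of_monic_of_associated hm (minp (k := k) x).1
        (hirr.associated_of_dvd (minp (k := k) x).2 h3)).symm
    · refine fin_unique (plc_fin x) (fin_of_ne hv) hirr ?_ ?_
      · rw [← h]
        exact plc_ord x
      · rw [hord]
        norm_num
  rw [h1, card_roots hirr hm, hdeg]

variable {n : ℕ}

/-- the sum over the places as a sum over the projective line -/
theorem sum_places [Fintype E] (c : ℕ → ℤ) (I : Set (MvPolynomial (Fin (n + 1)) k))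
    (F G : MvPolynomial (Fin (n + 1)) k) {a : Place k (RatFunc k) → ℕ → ℤ}
    (ha : ∀ v, IsTrace c v (RatFunc.X : RatFunc k) I F G (a v)) :
    (∑ v ∈ (places_fin (k := k) (K := RatFunc k) (finrank k E)).toFinset,
        if v.deg ∣ finrank k E then (v.deg : ℤ) * a v (finrank k E / v.deg) else 0) =
      (Fintype.card E + 1) * c (Fintype.card E) - (Nat.card (Pts E (algebraMap k E) I) +
        Fintype.card E * Nat.card (Pts E (algebraMap k E) (I ∪ {F, G}))) := by
  classical
  have hfd : FiniteDimensional k E := Module.Finite.of_finite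
  have hr0 : 0 < finrank k E := finrank_pos
  set r := finrank k E with hr
  have hcE : Nat.card E = Nat.card k ^ r := Module.natCard_eq_pow_finrank (K := k) (V := E)
  set N : Option E → ℤ := fun x => c (Fintype.card E) -
    Nat.card (Fibre E (algebraMap k E) I F G x) with hN
  -- the value at infinity
  have hinf : a (infty k) r = N none := by
    have hd : (infty k).deg = 1 := inf_deg infty_X
    have hb := bij_of_deg hd
    let e : k ≃+* (infty k).RF := RingEquiv.ofBijective (algebraMap k (infty k).RF) hb
    let j : S.Res (infty k) →+* E := (algebraMap k E).comp e.symm.toRingHom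
    have h1 := ha (infty k) r E j hr0 (by
      rw [card_res, hd, pow_one, hcE])
    have h2 : j.comp (cst (infty k)) = algebraMap k E := by
      ext c
      show algebraMap k E (e.symm (cst (infty k) c)) = _
      have h3 : cst (infty k) c = e c := by
        rw [cst_apply]
        rfl
      rw [h3, RingEquiv.symm_apply_apply]
    have h3 : value (infty k) (RatFunc.X : RatFunc k) = none := by
      unfold value
      rw [if_neg]
      rintro (h4 | h4)
      · exact RatFunc.X_ne_zero h4
      · have := infty_X (k := k)
        omega
    rw [h1, h2, h3, Nat.card_eq_fintype_card]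
    rfl
  -- the values at the finite places
  have hval : ∀ x : E, N (some x) = a (plc x) (r / (plc (k := k) x).deg) := by
    intro x
    obtain ⟨j, hj1, hj2⟩ := exists_emb (k := k) x
    have hd : (plc (k := k) x).deg ∣ r := by
      rw [plc_deg]
      exact minp_dvd x
    have hd0 : 0 < (plc (k := k) x).deg := deg_pos _
    have h1 := ha (plc x) (r / (plc (k := k) x).deg) E j
      (Nat.div_pos (Nat.le_of_dvd hr0 hd) hd0) (by
        rw [card_res, ← pow_mul, Nat.mul_div_cancel' hd, hcE])
    have h3 : (value (plc x) (RatFunc.X : RatFunc k)).map j = some x := by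
      have hreg : (plc (k := k) x).Reg RatFunc.X := Or.inr (plc_fin x)
      unfold value
      rw [if_pos hreg]
      show some (j _) = some x
      rw [hj2]
    rw [h1, hj1, h3, Nat.card_eq_fintype_card]
  -- the sum
  have hsum : ∑ x : E, N (some x) =
      ∑ v ∈ (places_fin (k := k) (K := RatFunc k) r).toFinset.erase (infty k),
        if v.deg ∣ r then (v.deg : ℤ) * a v (r / v.deg) else 0 := by
    rw [← Finset.sum_fiberwise_of_maps_to (g := fun x : E => plc (k := k) x)
      (t := (places_fin (k := k) (K := RatFunc k) r).toFinset.erase (infty k))]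
    · refine Finset.sum_congr rfl fun v hv => ?_
      have hv1 : v ≠ infty k := Finset.ne_of_mem_erase hv
      rw [Finset.sum_congr rfl (g := fun _ => a v (r / v.deg))]
      · rw [Finset.sum_const, card_plc hv1, nsmul_eq_mul]
        split_ifs
        · rfl
        · simp
      · intro x hx
        rw [Finset.mem_filter] at hx
        rw [hval x, hx.2]
    · intro x _
      rw [Finset.mem_erase, Set.Finite.mem_toFinset]
      refine ⟨plc_ne x, ?_⟩
      show (plc (k := k) x).deg ≤ r
      rw [plc_deg]
      exact Nat.le_of_dvd hr0 (minp_dvd x)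
  have hmem : infty k ∈ (places_fin (k := k) (K := RatFunc k) r).toFinset := by
    rw [Set.Finite.mem_toFinset]
    show (infty k).deg ≤ r
    rw [inf_deg infty_X]
    exact hr0
  rw [← Finset.add_sum_erase _ _ hmem, ← hsum]
  have hd : (infty k).deg = 1 := inf_deg infty_X
  rw [hd, if_pos (one_dvd r), Nat.div_one, hinf, Nat.cast_one, one_mul]
  have h5 := sum_fibres E (algebraMap k E) I F G
  have h6 := congrArg (Nat.cast (R := ℤ)) h5
  push_cast at h6
  rw [hN]
  simp only
  rw [Finset.sum_sub_distrib, Finset.sum_const, Finset.card_univ, nsmul_eq_mul]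
  linarith

end ext

end Pool.Agent.Y701.PE
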