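import Pool.Agent.Y701.PE.Sums

/-!
Statements on the numbers of points over the finite extensions of a finite field.
-/

set_option autoImplicit false
set_option linter.all false

open scoped LinearAlgebra.Projectivization

namespace Pool.Agent.Y701.PE

/-- The points over the field with `q ^ r` elements are the points over the field with `q ^ M` elements
fixed by the `r`-th power of the Frobenius permutation. -/
def S_FIX : Prop :=
  ∀ (k : Type) [Field k] [Finite k] (n : ℕ) (J : Set (MvPolynomial (Fin (n + 1)) k)),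
    (∀ f ∈ J, ∃ d, f.IsHomogeneous d) →
    ∀ (M : ℕ) (E : Type) [Field E] [Finite E] (ι : k →+* E), 0 < M →
      Nat.card E = Nat.card k ^ M →
      ∃ σ : Equiv.Perm (Pts E ι J), ∀ (r : ℕ) (E' : Type) [Field E'] [Finite E'] (ι' : k →+* E'),
        0 < r → r ∣ M → Nat.card E' = Nat.card k ^ r →
          Nat.card (Pts E' ι' J) = Nat.card {y : Pts E ι J // (σ ^ r) y = y}

/-- The exponential of the numbers of fixed points is integral. -/
def S_INT : Prop :=
  ∀ N : ℕ → ℕ, (∀ M : ℕ, 0 < M → ∃ (S : Type) (_ : Finite S) (σ : Equiv.Perm S),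
      ∀ r : ℕ, 0 < r → r ∣ M → N r = Nat.card {y : S // (σ ^ r) y = y}) →
    ∃ P : PowerSeries ℤ, PowerSeries.constantCoeff P = 1 ∧
      ∀ n : ℕ, (n : ℤ) * PowerSeries.coeff n P =
        ∑ i ∈ Finset.range n, PowerSeries.coeff i P * (N (n - i) : ℤ)

end Pool.Agent.Y701.PE
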