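import Pool.Agent.Y701.PE.Defs
import Pool.Agent.Y701.QG.Roots

/-!
The power sums of the product over the places of the rational function field.
-/

set_option autoImplicit false
set_option linter.all false
set_option maxHeartbeats 4000000

open FF Module Pool.Agent.W343.BSD
open scoped LinearAlgebra.Projectivization

namespace Pool.Agent.Y701.PE

open Pool.Agent.Y701.QF Pool.Agent.W309.RF

section pws

open PowerSeries

theorem pw_mod {F G : PowerSeries ℂ} (hF : constantCoeff F = 1) (hG : constantCoeff G = 1) {n : ℕ}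
    (h : (X : PowerSeries ℂ) ^ (n + 1) ∣ F - G) : coeff n (pw F) = coeff n (pw G) := by
  have hF' : constantCoeff F ≠ 0 := by rw [hF]; exact one_ne_zero
  have hG' : constantCoeff G ≠ 0 := by rw [hG]; exact one_ne_zero
  have h1 : (X : PowerSeries ℂ) ^ (n + 1) ∣ theta F - theta G := by
    rw [X_pow_dvd_iff] at h ⊢
    intro m hm
    have h2 := h m hm
    rw [map_sub] at h2 ⊢
    rw [coeff_theta, coeff_theta, ← mul_sub, h2, mul_zero]
  have h2 : (X : PowerSeries ℂ) ^ (n + 1) ∣ (pw F - pw G) * F := by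
    have e : (pw F - pw G) * F = (theta F - theta G) - pw G * (F - G) := by
      rw [← pw_spec hF', ← pw_spec hG']
      ring
    rw [e]
    exact dvd_sub h1 (h.mul_left _)
  have h3 : (X : PowerSeries ℂ) ^ (n + 1) ∣ pw F - pw G := by
    have := h2.mul_right F⁻¹
    rwa [mul_assoc, PowerSeries.mul_inv_cancel F hF', mul_one] at this
  have h4 := X_pow_dvd_iff.1 h3 n (Nat.lt_succ_self n)
  rwa [map_sub, sub_eq_zero] at h4

variable {k K : Type} [Field k] [Finite k] [Field K] [Algebra k K] [FF.IsFF k K]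

theorem pw_euler {P : Place k K → PowerSeries ℤ} {a : Place k K → ℕ → ℤ}
    (hP : ∀ v, IsExp (a v) (P v)) {Λ : PowerSeries ℤ}
    (hΛ : Λ * eulerProd (fun v : Place k K => v.deg) (fun v => sub v.deg (P v)) = 1) {n : ℕ}
    (hn : n ≠ 0) : coeff n (pw (toC Λ)) =
      ((∑ v ∈ (places_fin (k := k) (K := K) n).toFinset,
        if v.deg ∣ n then (v.deg : ℤ) * a v (n / v.deg) else 0 : ℤ) : ℂ) := by
  classical
  have hdeg : ∀ v : Place k K, v.deg ≠ 0 := fun w => (Pool.Agent.H525R3.FFp.deg_pos w).ne'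
  set EP := eulerProd (fun v : Place k K => v.deg) (fun v => sub v.deg (P v)) with hEP
  have hmod := eulerProd_mod (fun n => places_fin n)
    (f := fun v : Place k K => sub v.deg (P v))
    (fun v => sub_mod (hdeg v) (hP v).1) n (places_fin (k := k) (K := K) n).toFinset
    (fun i hi => by rw [Set.Finite.mem_toFinset]; exact hi)
  have hc0 : constantCoeff (∏ v ∈ (places_fin (k := k) (K := K) n).toFinset,
      sub v.deg (P v)) = 1 := by
    rw [map_prod]
    exact Finset.prod_eq_one fun v _ => by rw [cc_sub, (hP v).1]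
  have hc1 : constantCoeff EP = 1 := by
    have h1 := X_pow_dvd_iff.1 hmod 0 (Nat.succ_pos n)
    rw [map_sub, sub_eq_zero, coeff_zero_eq_constantCoeff_apply,
      coeff_zero_eq_constantCoeff_apply, hc0] at h1
    exact h1
  have hc2 : constantCoeff Λ = 1 := by
    have h1 := congrArg constantCoeff hΛ
    rw [map_mul, hc1, mul_one, map_one] at h1
    exact h1
  have d1 := cc_toC hc1
  have d2 := cc_toC hc2
  have h1 : pw (toC Λ) + pw (toC EP) = 0 := by
    rw [← pw_mul (by rw [d2]; exact one_ne_zero) (by rw [d1]; exact one_ne_zero), ← map_mul, hΛ,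
      map_one, pw_one]
  have h2 : coeff n (pw (toC EP)) =
      coeff n (pw (toC (∏ v ∈ (places_fin (k := k) (K := K) n).toFinset,
        sub v.deg (P v)))) := by
    apply pw_mod d1 (cc_toC hc0)
    have h3 := map_dvd toC hmod
    rwa [map_sub, map_pow, PowerSeries.map_X] at h3
  have h3 := congrArg (coeff n) h1
  rw [map_add, map_zero, h2, map_prod, pw_prod, map_sum] at h3
  · rw [eq_neg_of_add_eq_zero_left h3]
    push_cast
    rw [← Finset.sum_neg_distrib]
    refine Finset.sum_congr rfl fun v hv => ?_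
    have h4 : toC (sub v.deg (P v)) = sub v.deg (toC (P v)) := map_sub' _ _ _
    rw [h4, pw_sub (hdeg v) (cc_toC (hP v).1)]
    split_ifs with hd
    · have h5 : n / v.deg ≠ 0 :=
        (Nat.div_pos (Nat.le_of_dvd (Nat.pos_of_ne_zero hn) hd)
          (Nat.pos_of_ne_zero (hdeg v))).ne'
      rw [pw_of (hP v) h5]
      ring
    · simp
  · intro v _
    rw [cc_toC (by rw [cc_sub, (hP v).1])]
    exact one_ne_zero

end pws

section fibres

variable {k : Type} [Field k] {n : ℕ}

/-- The points of the variety defined by `I`. -/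
def Pts (E : Type) [Field E] (ι : k →+* E) (I : Set (MvPolynomial (Fin (n + 1)) k)) :
    Set (ℙ E (Fin (n + 1) → E)) :=
  {y | ∀ f ∈ I, f.eval₂ ι y.rep = 0}

/-- the points of the fibres -/
theorem sum_fibres (E : Type) [Field E] [Fintype E] (ι : k →+* E)
    (I : Set (MvPolynomial (Fin (n + 1)) k)) (F G : MvPolynomial (Fin (n + 1)) k) :
    ∑ x : E, Nat.card (Fibre E ι I F G (some x)) + Nat.card (Fibre E ι I F G none) =
      Nat.card (Pts E ι I) + Fintype.card E * Nat.card (Pts E ι (I ∪ {F, G})) := by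
  classical
  have hfin : Finite (ℙ E (Fin (n + 1) → E)) := inferInstance
  letI : Fintype (ℙ E (Fin (n + 1) → E)) := Fintype.ofFinite _
  have hcard : ∀ (S : Set (ℙ E (Fin (n + 1) → E))), Nat.card S =
      ∑ y : ℙ E (Fin (n + 1) → E), if y ∈ S then 1 else 0 := by
    intro S
    rw [Finset.sum_boole, Nat.card_eq_fintype_card, ← Set.toFinset_card]
    congr 1
    ext y
    simp
  simp only [hcard]
  rw [Finset.sum_comm, Finset.mul_sum, ← Finset.sum_add_distrib, ← Finset.sum_add_distrib]
  refine Finset.sum_congr rfl fun y _ => ?_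
  have m1 : ∀ x : E, y ∈ Fibre E ι I F G (some x) ↔ y ∈ Pts E ι I ∧
      F.eval₂ ι y.rep = x * G.eval₂ ι y.rep := fun x => Iff.rfl
  have m2 : y ∈ Fibre E ι I F G none ↔ y ∈ Pts E ι I ∧ G.eval₂ ι y.rep = 0 := Iff.rfl
  have m3 : y ∈ Pts E ι (I ∪ {F, G}) ↔ y ∈ Pts E ι I ∧ F.eval₂ ι y.rep = 0 ∧
      G.eval₂ ι y.rep = 0 := by
    constructor
    · intro h
      exact ⟨fun f hf => h f (Or.inl hf), h F (Or.inr (Or.inl rfl)),
        h G (Or.inr (Or.inr rfl))⟩
    · rintro ⟨h1, h2, h3⟩ f (hf | hf | hf)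
      · exact h1 f hf
      · rw [hf]; exact h2
      · rw [hf]; exact h3
  simp only [m1, m2, m3]
  by_cases hy : y ∈ Pts E ι I
  · simp only [hy, true_and, if_true]
    by_cases hG : G.eval₂ ι y.rep = 0
    · by_cases hF : F.eval₂ ι y.rep = 0
      · simp [hG, hF]
        ring
      · simp [hG, hF]
    · have : ∀ x : E, (F.eval₂ ι y.rep = x * G.eval₂ ι y.rep) ↔
          x = F.eval₂ ι y.rep / G.eval₂ ι y.rep := by
        intro x
        rw [eq_div_iff hG]
        exact eq_comm
      simp [hG, this]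
  · simp [hy]

end fibres

end Pool.Agent.Y701.PE
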